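import Pool.Agent.J4.H82.PV.H

/-!
# Functions on the points which kill rational equivalence
-/

set_option autoImplicit false

open FF IntermediateField Pool.Agent.W603.LV Pool.Agent.W603.PV Pool.Agent.J4.H17.ZC
  Pool.Agent.N162.CV Pool.Agent.N75.CV Pool.Agent.J4.H82.PV

namespace Pool.Agent.J4.H18.CV

section ev

variable {E : Type} [Field E] {A B : Type}

/-- the additive extension of a function on points to zero-cycles -/
noncomputable def ev (Λ : A → E) : (A →₀ ℤ) →+ E :=
  (Finsupp.linearCombination ℤ Λ).toAddMonoidHom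

theorem ev_single (Λ : A → E) (a : A) (n : ℤ) : ev Λ (Finsupp.single a n) = (n : E) * Λ a := by
  change Finsupp.linearCombination ℤ Λ (Finsupp.single a n) = _
  rw [Finsupp.linearCombination_single, zsmul_eq_mul]

theorem ev_apply (Λ : A → E) (z : A →₀ ℤ) : ev Λ z = z.sum fun a n => (n : E) * Λ a := by
  change Finsupp.linearCombination ℤ Λ z = _
  rw [Finsupp.linearCombination_apply]
  exact Finsupp.sum_congr fun a _ => zsmul_eq_mul _ _

theorem ev_map (F : A → B) (Λ : B → E) (z : A →₀ ℤ) :
    ev Λ (Finsupp.mapDomain F z) = ev (fun a => Λ (F a)) z := by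
  induction z using Finsupp.induction_linear with
  | zero => rw [Finsupp.mapDomain_zero, map_zero, map_zero]
  | add u v hu hv => rw [Finsupp.mapDomain_add, map_add, map_add, hu, hv]
  | single a n => rw [Finsupp.mapDomain_single, ev_single, ev_single]

theorem ev_sum {J : Type} (S : Finset J) (c : J → E) (Λ : J → A → E) (z : A →₀ ℤ) :
    ev (fun a => ∑ j ∈ S, c j * Λ j a) z = ∑ j ∈ S, c j * ev (Λ j) z := by
  induction z using Finsupp.induction_linear with
  | zero => simp
  | add u v hu hv =>
    rw [map_add, hu, hv, ← Finset.sum_add_distrib]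
    exact Finset.sum_congr rfl fun j _ => by rw [map_add, mul_add]
  | single a n =>
    rw [ev_single, Finset.mul_sum]
    exact Finset.sum_congr rfl fun j _ => by rw [ev_single]; ring

theorem ev_mul (c : E) (Λ : A → E) (z : A →₀ ℤ) : ev (fun a => c * Λ a) z = c * ev Λ z := by
  have h := ev_sum (Finset.univ : Finset Unit) (fun _ => c) (fun _ => Λ) z
  simpa using h

theorem ev_hom (l : (A →₀ ℤ) →+ E) : ev (fun a => l (Finsupp.single a 1)) = l := by
  refine Finsupp.addHom_ext fun a n => ?_
  rw [ev_single, ← zsmul_eq_mul, ← map_zsmul, Finsupp.smul_single, smul_eq_mul, mul_one]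

end ev

section kill

variable {k : Type} [Field k] [CharZero k] {E : Type} [Field E] {X Y : Var k}

/-- the function kills the zero-cycles rationally equivalent to zero -/
def Kill (X : Var k) (Λ : X.Pt → E) : Prop := ∀ z ∈ RatEq X, ev Λ z = 0

theorem Kill.comp {F : X.Pt → Y.Pt} (hF : Reg (X := X) (Y := Y) F) {Λ : Y.Pt → E}
    (h : Kill Y Λ) : Kill X (fun a => Λ (F a)) := by
  intro z hz
  rw [← ev_map]
  exact h _ (hF.push hz)

theorem Kill.sum {J : Type} (S : Finset J) (c : J → E) (Λ : J → X.Pt → E)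
    (h : ∀ j ∈ S, Kill X (Λ j)) : Kill X (fun a => ∑ j ∈ S, c j * Λ j a) := by
  intro z hz
  rw [ev_sum]
  exact Finset.sum_eq_zero fun j hj => by rw [h j hj z hz, mul_zero]

theorem Kill.div {Λ : X.Pt → E} (h : Kill X Λ) {L : Type} [Field L] [Algebra k L] [IsFF k L]
    {y : Place k L → X.Pt} (hy : X.IsMor L y) {f : L} (hf : f ≠ 0) :
    ∑ P ∈ (divisor k f).support, ((P.ord f : ℤ) : E) * Λ (y P) = 0 := by
  have h1 := h _ (mem_ratEq hy hf)
  rw [ev_map, ev_apply] at h1
  exact h1

end kill

end Pool.Agent.J4.H18.CV
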