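import Pool.Agent.J4.H18.CV.A

/-!
# Galois closures and norms, cyclic covers
-/

set_option autoImplicit false

open FF IntermediateField Pool.Agent.W603.LV Pool.Agent.W603.PV Pool.Agent.J4.H17.ZC
  Pool.Agent.N162.CV Pool.Agent.N75.CV Pool.Agent.J4.H82.PV

namespace Pool.Agent.J4.H18.CV

/-- A Galois extension which contains all embeddings and a root of a given element. -/
theorem exists_galois' (F0 F K : Type) [Field F0] [Field F] [Field K] [Algebra F0 F] [Algebra F K]
    [Algebra F0 K] [IsScalarTower F0 F K] [FiniteDimensional F0 K] [FiniteDimensional F0 F]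
    [CharZero F0] (x0 : F0) {d : ℕ} (hd : 0 < d) :
    ∃ (M : Type) (_ : Field M) (_ : Algebra F0 M) (_ : FiniteDimensional F0 M)
      (_ : IsGalois F0 M) (_ : Fintype (F →ₐ[F0] M)),
      Fintype.card (F →ₐ[F0] M) = Module.finrank F0 F ∧
      (∀ z : F, algebraMap F0 M (Algebra.norm F0 z) = ∏ ψ : F →ₐ[F0] M, ψ z) ∧
      (∃ z : M, z ^ d = algebraMap F0 M x0) ∧
      ∃ φ : (F →ₐ[F0] M) → (K →ₐ[F0] M), ∀ ψ x, φ ψ (algebraMap F K x) = ψ x := by
  classical
  let A := AlgebraicClosure K
  have : FiniteDimensional F K := FiniteDimensional.right F0 F K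
  have hAF : Algebra.IsAlgebraic F0 A := Algebra.IsAlgebraic.trans F0 K A
  have hAC : IsAlgClosure F0 A := ⟨inferInstance, hAF⟩
  have hnA : Normal F0 A := IsAlgClosure.normal F0 A
  obtain ⟨zA, hzA⟩ := IsAlgClosed.exists_pow_nat_eq (algebraMap F0 A x0) hd
  let L : IntermediateField F0 A :=
    (IsScalarTower.toAlgHom F0 K A).fieldRange ⊔ IntermediateField.adjoin F0 {zA}
  have hL1 : FiniteDimensional F0 (IsScalarTower.toAlgHom F0 K A).fieldRange :=
    LinearMap.finiteDimensional_range (IsScalarTower.toAlgHom F0 K A).toLinearMap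
  have hL2 : FiniteDimensional F0 (IntermediateField.adjoin F0 {zA}) :=
    IntermediateField.adjoin.finiteDimensional (hAF.isAlgebraic zA).isIntegral
  have hL : FiniteDimensional F0 L := IntermediateField.finiteDimensional_sup _ _
  let M := normalClosure F0 L A
  have hLM : L ≤ M := IntermediateField.le_normalClosure L
  have hlift : ∀ ψ : F →ₐ[F0] A, ∃ φ : K →ₐ[F0] M, ∀ x, (φ (algebraMap F K x) : A) = ψ x := by
    intro ψ
    obtain ⟨φ, hφ⟩ := IsAlgClosed.surjective_domRestrict_of_isAlgebraic (K := F0) (L := F)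
      (M := A) (E := K) ψ
    -- extend to an automorphism of `A`
    obtain ⟨Φ, hΦ⟩ := IsAlgClosed.surjective_domRestrict_of_isAlgebraic (K := F0) (L := K)
      (M := A) (E := A) φ
    have h1 : ∀ x : K, φ x ∈ M := fun x => by
      have h2 : (algebraMap K A x) ∈ L :=
        (le_sup_left : (IsScalarTower.toAlgHom F0 K A).fieldRange ≤ L) ⟨x, rfl⟩
      have h3 : (Φ.comp L.val) ⟨algebraMap K A x, h2⟩ ∈ M :=
        AlgHom.fieldRange_le_normalClosure (Φ.comp L.val) ⟨_, rfl⟩
      have h4 : (Φ.comp L.val) ⟨algebraMap K A x, h2⟩ = φ x := by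
        rw [← hΦ]; rfl
      rwa [h4] at h3
    refine ⟨φ.codRestrict M.toSubalgebra h1, fun x => ?_⟩
    rw [← hφ]
    rfl
  let e : (F →ₐ[F0] M) ≃ (F →ₐ[F0] A) := Equiv.ofBijective (fun ψ => M.val.comp ψ) (by
    constructor
    · intro ψ ψ' h
      ext x
      exact DFunLike.congr_fun h x
    · intro ψ
      obtain ⟨φ, hφ⟩ := hlift ψ
      refine ⟨φ.comp (IsScalarTower.toAlgHom F0 F K), ?_⟩
      ext x
      exact hφ x)
  let i1 : Fintype (F →ₐ[F0] M) := Fintype.ofEquiv _ e.symm
  have hM : IsGalois F0 M := { }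
  refine ⟨M, inferInstance, inferInstance, inferInstance, hM, i1, ?_, ?_, ?_, ?_⟩
  · rw [Fintype.card_congr e, AlgHom.card]
  · intro z
    have h1 := Algebra.norm_eq_prod_embeddings F0 A z
    have h2 : Function.Injective (algebraMap M A) := (algebraMap M A).injective
    apply h2
    rw [← IsScalarTower.algebraMap_apply, h1, map_prod]
    exact (Fintype.prod_equiv e _ _ fun ψ => rfl).symm
  · refine ⟨⟨zA, hLM ((le_sup_right : IntermediateField.adjoin F0 {zA} ≤ L)
      (mem_adjoin_simple_self F0 zA))⟩, Subtype.ext ?_⟩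
    exact hzA
  · choose φ hφ using fun ψ : F →ₐ[F0] M => hlift (e ψ)
    exact ⟨φ, fun ψ x => Subtype.ext (hφ ψ x)⟩

section const

variable {k : Type} [Field k] [CharZero k] [IsAlgClosed k] {M : Type} [Field M] [Algebra k M]

theorem const_of_pow {ξ : M} {d : ℕ} (hd : 0 < d) (h : ξ ^ d = 1) :
    ∃ c : k, ξ = algebraMap k M c := by
  apply const_of_algebraic
  refine (IsIntegral.of_pow hd ?_).isAlgebraic
  rw [h]
  exact isIntegral_one

theorem const_of_pow_eq {x y : M} {d : ℕ} (hd : 0 < d) (hy : y ≠ 0) (h : x ^ d = y ^ d) :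
    ∃ c : k, x = algebraMap k M c * y := by
  obtain ⟨c, hc⟩ := const_of_pow (k := k) hd (ξ := x / y) (by
    rw [div_pow, h, div_self (pow_ne_zero _ hy)])
  exact ⟨c, by rw [← hc, div_mul_cancel₀ _ hy]⟩

end const

section rational

variable {k : Type} [Field k] {F : Type} [Field F] [Algebra k F] [CharZero k] [IsAlgClosed k]
  [IsFF k F]

theorem norm_form' {t : F} {pt : k → Place k F} {oo : Place k F} (hp : RatPl k t pt oo)
    (ht : Transcendental k t) (N : F) (hN : N ≠ 0) (c c' : k) {d : ℕ} (hd : 0 < d) (a : ℤ)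
    (hpar : ∀ v : Place k F, (d : ℤ) ∣ v.ord N - a * (v.ord (t - algebraMap k F c) -
      v.ord (t - algebraMap k F c'))) :
    ∃ R : F, R ≠ 0 ∧ N = R ^ d * ((t - algebraMap k F c) / (t - algebraMap k F c')) ^ a := by
  have htc0 : ∀ c : k, t - algebraMap k F c ≠ 0 := fun c h => by
    have := transc_sub_const ht c
    rw [h] at this
    exact this isAlgebraic_zero
  set s := ((t - algebraMap k F c) / (t - algebraMap k F c')) ^ a with hs
  have hs0 : s ≠ 0 := zpow_ne_zero _ (div_ne_zero (htc0 c) (htc0 c'))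
  have h1 : ∀ v : Place k F, (d : ℤ) ∣ v.ord (N / s) := by
    intro v
    rw [v.ord_div hN hs0, hs, v.ord_zpow, v.ord_div (htc0 c) (htc0 c')]
    exact hpar v
  let D : Place k F →₀ ℤ := (divisor k (N / s)).mapRange (fun n => n / (d : ℤ)) (by simp)
  have hD : ∀ v, D v = (divisor k (N / s)) v / (d : ℤ) := fun v => by
    change ((divisor k (N / s)).mapRange (fun n => n / (d : ℤ)) _) v = _
    rw [Finsupp.mapRange_apply]
  have h2 : (d : ℕ) • D = divisor k (N / s) := by
    ext v
    rw [Finsupp.smul_apply, hD, divisor_apply, nsmul_eq_mul]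
    exact Int.mul_ediv_cancel' (h1 v)
  have h3 : ddeg D = 0 := by
    have h4 := congrArg ddeg h2
    rw [ddeg_nsmul, ddeg_divisor] at h4
    have hd' : (d : ℤ) ≠ 0 := by exact_mod_cast hd.ne'
    exact (mul_eq_zero.1 h4).resolve_left hd'
  obtain ⟨R0, hR0, hR⟩ := hp.principal ht _ h3
  have hpow : ∀ n : ℕ, divisor k (R0 ^ n) = n • divisor k R0 := by
    intro n
    induction n with
    | zero => rw [pow_zero, zero_smul]; ext v; rw [divisor_apply, v.ord_one]; rfl
    | succ n ih => rw [pow_succ, divisor_mul (pow_ne_zero _ hR0) hR0, ih, succ_nsmul]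
  have h4 : divisor k (N / s * (R0 ^ d)⁻¹) = 0 := by
    rw [divisor_mul (div_ne_zero hN hs0) (inv_ne_zero (pow_ne_zero _ hR0)), divisor_inv, hpow, hR,
      h2, add_neg_cancel]
  obtain ⟨b0, hb0⟩ := const_of_divisor h4
  obtain ⟨b, hb⟩ := IsAlgClosed.exists_pow_nat_eq b0 hd
  have h5 : N = algebraMap k F b0 * R0 ^ d * s := by
    rw [← hb0]
    field_simp
  refine ⟨algebraMap k F b * R0, ?_, ?_⟩
  · refine mul_ne_zero ?_ hR0
    rintro h
    have hb0' : b = 0 := by simpa using h
    rw [← hb, hb0', zero_pow hd.ne', map_zero, zero_mul, zero_mul] at h5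
    exact hN h5
  · rw [h5, ← hb, map_pow, mul_pow]

end rational

section func

variable {k : Type} [Field k] [CharZero k] [IsAlgClosed k] {F0 M : Type} [Field F0]
  [Field M] [Algebra k F0] [Algebra k M] [Algebra F0 M]
  [IsScalarTower k F0 M] [IsFF k F0] [IsFF k M]

omit [IsFF k F0] in
/-- The function which is used to compare the fibre at infinity with a fibre which contains a
branch point. -/
theorem exists_fun' {t0 : F0} (ht : Transcendental k t0) {u : M} {R : F0} (hR0 : R ≠ 0) (c c' : k)
    {d : ℕ} (hd : 0 < d) (a : ℤ)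
    (hu : u ^ d = algebraMap F0 M (R ^ d * ((t0 - algebraMap k F0 c) /
      (t0 - algebraMap k F0 c')) ^ a)) {z : M} (hz : z ^ d = algebraMap F0 M
      ((t0 - algebraMap k F0 c) / (t0 - algebraMap k F0 c'))) :
    ∃ f : M, f ≠ 0 ∧ (∀ P : Place k M, 0 < P.ord f →
        0 < P.ord (algebraMap F0 M (t0 - algebraMap k F0 c))) ∧
      (∀ P : Place k M, P.ord f < 0 → P.ord (algebraMap F0 M t0) < 0) ∧
      (∃ P : Place k M, P.ord f < 0) ∧
      ∀ (γ : M ≃ₐ[F0] M) (P : Place k M), P.ord f < 0 →
        (act (γ.restrictScalars k) P).ord f < 0 → γ.symm u = u := by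
  set t : M := algebraMap F0 M t0 with htt
  have htr : Transcendental k t := (transcendental_algebraMap_iff (algebraMap F0 M).injective).2 ht
  have htc : ∀ c : k, algebraMap F0 M (t0 - algebraMap k F0 c) = t - algebraMap k M c := by
    intro c
    rw [map_sub, ← IsScalarTower.algebraMap_apply]
  have htc0 : ∀ c : k, t - algebraMap k M c ≠ 0 := fun c h => by
    have := transc_sub_const htr c
    rw [h] at this
    exact this isAlgebraic_zero
  rw [map_mul, map_pow, map_zpow₀, map_div₀, htc, htc] at hu
  rw [map_div₀, htc, htc] at hz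
  have hRM : algebraMap F0 M R ≠ 0 := by simpa using hR0
  have hkF : ∀ (γ : M ≃ₐ[F0] M) (b : k), γ (algebraMap k M b) = algebraMap k M b := fun γ b => by
    rw [IsScalarTower.algebraMap_apply k F0 M, AlgEquiv.commutes]
  by_cases hcc : c = c'
  · -- the norm is a power
    subst hcc
    refine ⟨t - algebraMap k M c, htc0 c, fun P hP => by rw [htc]; exact hP,
      fun P hP => neg_of_sub_const c hP, exists_pole (transc_sub_const htr c), fun γ P _ _ => ?_⟩
    rw [div_self (htc0 c), one_zpow, mul_one] at hu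
    obtain ⟨b, hb⟩ := const_of_pow_eq (k := k) hd hRM hu
    rw [hb, map_mul, hkF, AlgEquiv.commutes]
  · set x : M := (t - algebraMap k M c) / (t - algebraMap k M c') with hx
    have hx0 : x ≠ 0 := div_ne_zero (htc0 c) (htc0 c')
    have hz0 : z ≠ 0 := by
      rintro rfl
      rw [zero_pow hd.ne'] at hz
      exact hx0 hz.symm
    have hcc' : c' - c ≠ 0 := sub_ne_zero.2 (Ne.symm hcc)
    have hcM : algebraMap k M (c' - c) ≠ 0 := by rw [Ne, map_eq_zero]; exact hcc'
    have hx1 : x - 1 = algebraMap k M (c' - c) / (t - algebraMap k M c') := by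
      rw [hx, map_sub]
      have := htc0 c'
      field_simp
      ring
    have hx10 : x - 1 ≠ 0 := by
      rw [hx1]
      exact div_ne_zero hcM (htc0 c')
    have hz1 : z - 1 ≠ 0 := by
      intro h
      apply hx10
      have : z = 1 := sub_eq_zero.1 h
      rw [← hz, this, one_pow, sub_self]
    have hzd0 : z ^ d - 1 ≠ 0 := by rw [hz]; exact hx10
    -- orders
    have hord2 : ∀ P : Place k M, d * P.ord z =
        P.ord (t - algebraMap k M c) - P.ord (t - algebraMap k M c') := by
      intro P
      rw [← P.ord_div (htc0 c) (htc0 c'), ← hx, ← hz, P.ord_pow]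
    have hA : ∀ P : Place k M, P.ord z < 0 → P.ord (z - 1) = P.ord z := by
      intro P hP
      rw [sub_eq_add_neg, (P.ord_add_eq hz0 (neg_ne_zero.2 one_ne_zero)
        (by rw [P.ord_neg, P.ord_one]; exact hP)).2]
    have hB : ∀ P : Place k M, 0 < P.ord z → P.ord (z - 1) = 0 := by
      intro P hP
      have h3 := P.ord_add_eq (f := (-1 : M)) (neg_ne_zero.2 one_ne_zero) hz0
        (by rw [P.ord_neg, P.ord_one]; exact hP)
      rw [sub_eq_neg_add, h3.2, P.ord_neg, P.ord_one]
    have hC : ∀ P : Place k M, 0 ≤ P.ord z → 0 ≤ P.ord (z - 1) := by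
      intro P hP
      exact (Ge.sub (P := P) (N := 0) (Or.inr hP) Ge.one).resolve_left hz1
    have hdiv : ∀ P : Place k M, P.ord (z / (z - 1)) = P.ord z - P.ord (z - 1) := fun P =>
      P.ord_div hz0 hz1
    have hpole : ∀ P : Place k M, P.ord (z / (z - 1)) < 0 → P.ord z = 0 ∧ 0 < P.ord (z - 1) := by
      intro P hP
      rw [hdiv] at hP
      rcases lt_trichotomy (P.ord z) 0 with h | h | h
      · rw [hA P h] at hP; omega
      · exact ⟨h, by omega⟩
      · rw [hB P h] at hP; omega
    refine ⟨z / (z - 1), div_ne_zero hz0 hz1, ?_, ?_, ?_, ?_⟩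
    · intro P hP
      rw [hdiv] at hP
      have h1 : 0 < P.ord z := by
        rcases lt_trichotomy (P.ord z) 0 with h | h | h
        · rw [hA P h] at hP; omega
        · have := hC P h.ge; omega
        · exact h
      have h2 := hord2 P
      have hd' : (0 : ℤ) < d := by exact_mod_cast hd
      have h5 : 0 < (d : ℤ) * P.ord z := mul_pos hd' h1
      rw [htc]
      by_contra hcon
      have h3 : P.ord (t - algebraMap k M c') < 0 := by omega
      have h4 := neg_of_sub_const c' h3
      rw [sub_const_neg c h4, sub_const_neg c' h4] at h2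
      omega
    · intro P hP
      obtain ⟨h1, h2⟩ := hpole P hP
      have h3 : Ge P 0 (∑ i ∈ Finset.range d, z ^ i) := by
        refine Finset.sum_induction _ (fun y => Ge P 0 y) (fun a b ha hb => ha.add hb)
          (Or.inl rfl) fun i _ => Or.inr ?_
        rw [P.ord_pow, h1, mul_zero]
      have h4 : Ge P 1 (z ^ d - 1) := by
        rw [← mul_geom_sum]
        have h5 : Ge P (1 + 0) ((z - 1) * ∑ i ∈ Finset.range d, z ^ i) :=
          Ge.mul (Or.inr (by omega)) h3
        simpa using h5
      have h6 := h4.resolve_left hzd0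
      rw [hz, hx1, P.ord_div hcM (htc0 c'), P.ord_const hcc'] at h6
      exact neg_of_sub_const c' (by omega)
    · apply exists_pole
      intro h
      apply htr
      have h1 : IsAlgebraic k z := by
        have h2 : z = z / (z - 1) * (z / (z - 1) - 1)⁻¹ := by
          have h3 : z / (z - 1) - 1 = 1 / (z - 1) := by field_simp; ring
          rw [h3]
          field_simp
        rw [h2]
        exact h.mul (h.sub isAlgebraic_one).inv
      have h2 : IsAlgebraic k (t - algebraMap k M c') := by
        have h3 : t - algebraMap k M c' = algebraMap k M (c' - c) * (x - 1)⁻¹ := by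
          rw [hx1]
          have := htc0 c'
          field_simp
        rw [h3, ← hz]
        exact (isAlgebraic_algebraMap _).mul ((h1.pow d).sub isAlgebraic_one).inv
      have h3 := h2.add (isAlgebraic_algebraMap (A := M) c')
      rwa [sub_add_cancel] at h3
    · intro γ P hP hP'
      have hxF : ∃ y : F0, algebraMap F0 M y = x := by
        refine ⟨(t0 - algebraMap k F0 c) / (t0 - algebraMap k F0 c'), ?_⟩
        rw [map_div₀, htc, htc]
      obtain ⟨y, hy⟩ := hxF
      have h2 : (γ.symm z) ^ d = z ^ d := by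
        rw [← map_pow, hz, ← hy, AlgEquiv.commutes]
      obtain ⟨η, hη⟩ := const_of_pow_eq (k := k) hd hz0 h2
      have h5 : (act (γ.restrictScalars k) P).ord (z / (z - 1)) =
          P.ord (γ.symm (z / (z - 1))) := rfl
      obtain ⟨h6, h7⟩ := hpole P hP
      obtain ⟨h8, h9⟩ := hpole _ hP'
      have h10 : 0 < P.ord (γ.symm (z - 1)) := h9
      rw [map_sub, map_one, hη] at h10
      -- `η = 1`
      have h11 : Ge P 1 (algebraMap k M η * z - 1) := Or.inr (by omega)
      have h12 : Ge P 1 (algebraMap k M η * (z - 1)) := by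
        have : Ge P (0 + 1) (algebraMap k M η * (z - 1)) :=
          Ge.mul (Ge.const η) (Or.inr (by omega))
        simpa using this
      have h13 := h12.sub h11
      have h14 : algebraMap k M η * (z - 1) - (algebraMap k M η * z - 1) =
          algebraMap k M (1 - η) := by rw [map_sub, map_one]; ring
      rw [h14] at h13
      have hη1 : η = 1 := by
        by_contra hne
        have hne' : (1 : k) - η ≠ 0 := sub_ne_zero.2 (Ne.symm hne)
        rcases h13 with h13 | h13
        · rw [map_eq_zero] at h13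
          exact hne' h13
        · rw [P.ord_const hne'] at h13
          omega
      rw [hη1, map_one, one_mul] at hη
      have hu2 : u ^ d = (algebraMap F0 M R * z ^ a) ^ d := by
        rw [hu, mul_pow, ← hz, ← zpow_natCast (z ^ a), ← zpow_mul, mul_comm a, zpow_mul,
          zpow_natCast]
      obtain ⟨b, hb⟩ := const_of_pow_eq (k := k) hd (mul_ne_zero hRM (zpow_ne_zero a hz0)) hu2
      rw [hb, map_mul, map_mul, map_zpow₀, hη, hkF, AlgEquiv.commutes]

end func

section norm

variable {k : Type} [Field k] [CharZero k] [IsAlgClosed k] {F0 F : Type} [Field F0] [Field F]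
  [Algebra k F0] [Algebra k F] [Algebra F0 F] [IsScalarTower k F0 F] [IsFF k F0] [IsFF k F]
  [FiniteDimensional F0 F]

open Classical in
/-- The order of the norm, as a sum over a set which contains all places where the order is not
divisible by `d`. -/
theorem norm_ord {δ : F} (hδ : δ ≠ 0) {d : ℕ} (B : Finset (Place k F))
    (hB : ∀ v : Place k F, v ∉ B → (d : ℤ) ∣ v.ord δ) (v : Place k F0) :
    (d : ℤ) ∣ v.ord (Algebra.norm F0 δ) - ∑ b ∈ B, if under F0 b = v then b.ord δ else 0 := by
  obtain ⟨T, hT, hTn⟩ := nf_ k F0 F v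
  have hT' : ∀ w, w ∈ T ↔ under F0 w = v := by
    intro w
    rw [hT]
    constructor
    · intro hw
      symm
      refine Place.eq_of_le _ _ fun f hf0 hf => ?_
      have h2 := (hw f (Or.inr hf)).resolve_left (by simpa using hf0)
      rw [ord_under] at h2
      have h3 : (0 : ℤ) < ram F0 w := by exact_mod_cast (ram_spec (F := F0) w).1
      by_contra hcon
      push Not at hcon
      nlinarith
    · intro hw h hh
      rcases hh with hh | hh
      · exact Or.inl (by rw [hh, map_zero])
      · right
        rw [ord_under, hw]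
        positivity
  rw [hTn δ hδ]
  have h1 : ∑ b ∈ B, (if under F0 b = v then b.ord δ else 0) =
      ∑ w ∈ T, if w ∈ B then w.ord δ else 0 := by
    rw [← Finset.sum_filter, ← Finset.sum_filter]
    refine Finset.sum_congr ?_ fun _ _ => rfl
    ext w
    rw [Finset.mem_filter, Finset.mem_filter, hT']
    exact and_comm
  rw [h1, ← Finset.sum_sub_distrib]
  refine Finset.dvd_sum fun w _ => ?_
  split_ifs with h
  · rw [sub_self]; exact dvd_zero _
  · rw [sub_zero]
    exact hB w h

end norm

end Pool.Agent.J4.H18.CV
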