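import Pool.Agent.J4.H18.CV.B

/-!
# The comparison of the fibre at infinity with a fibre which contains a branch point
-/

set_option autoImplicit false

open FF IntermediateField Pool.Agent.W603.LV Pool.Agent.W603.PV Pool.Agent.J4.H17.ZC
  Pool.Agent.N162.CV Pool.Agent.N75.CV Pool.Agent.J4.H82.PV

namespace Pool.Agent.J4.H18.CV

theorem family' {k : Type} [Field k] [CharZero k] {E : Type} [Field E] [CharZero E] {M : Type}
    [Field M] [Algebra k M] [IsFF k M] {X : Var k} {Λ : X.Pt → E} (hΛ : Kill X Λ)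
    (y : Place k M → X.Pt) (hy : X.IsMor M y) {f : M} (hf : f ≠ 0)
    (hz : ∀ P : Place k M, 0 < P.ord f → Λ (y P) = 0) (θ : E)
    (hp : ∀ P : Place k M, P.ord f < 0 → Λ (y P) = θ) (hex : ∃ P : Place k M, P.ord f < 0) :
    θ = 0 := by
  classical
  have h3 := hΛ.div hy hf
  have h4 : ∀ P ∈ (divisor k f).support, ((P.ord f : ℤ) : E) * Λ (y P) =
      -((max (-P.ord f) 0 : ℤ) : E) * θ := by
    intro P _
    rcases lt_trichotomy (P.ord f) 0 with h | h | h
    · rw [hp P h, max_eq_left (by omega)]
      push_cast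
      ring
    · rw [h]; simp
    · rw [hz P h, max_eq_right (by omega)]; simp
  rw [Finset.sum_congr rfl h4, ← Finset.sum_mul] at h3
  rcases mul_eq_zero.1 h3 with h5 | h5
  · exfalso
    rw [Finset.sum_neg_distrib, neg_eq_zero, ← Int.cast_sum, Int.cast_eq_zero] at h5
    obtain ⟨P, hP⟩ := hex
    have h6 : 0 < ∑ P ∈ (divisor k f).support, max (-P.ord f) 0 := by
      apply Finset.sum_pos'
      · intro P _; exact le_max_right _ _
      · refine ⟨P, ?_, ?_⟩
        · rw [Finsupp.mem_support_iff, divisor_apply]; omega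
        · exact lt_max_of_lt_left (by omega)
    omega
  · exact h5

/-- Two embeddings of a normal extension which agree on the base field differ by an automorphism. -/
theorem exists_aut (F K M : Type) [Field F] [Field K] [Field M] [Algebra F K] [Normal F K]
    (χ χ' : K →+* M) (h : ∀ x : F, χ (algebraMap F K x) = χ' (algebraMap F K x)) :
    ∃ g : K ≃ₐ[F] K, ∀ x, χ x = χ' (g x) := by
  letI : Algebra K M := χ'.toAlgebra
  letI : Algebra F M := (χ'.comp (algebraMap F K)).toAlgebra
  haveI : IsScalarTower F K M := IsScalarTower.of_algebraMap_eq fun _ => rfl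
  let σ : K →ₐ[F] M := { χ with commutes' := fun x => h x }
  refine ⟨Normal.algHomEquivAut F M K σ, fun x => ?_⟩
  have h2 := (Normal.algHomEquivAut F M K).symm_apply_apply σ
  have h3 := DFunLike.congr_fun h2 x
  exact h3.symm

variable {k : Type} [Field k] [CharZero k] [IsAlgClosed k] {F0 F K : Type} [Field F0] [Field F]
  [Field K] [Algebra k F0] [Algebra k F] [Algebra k K] [Algebra F0 F]
  [Algebra F K] [Algebra F0 K] [IsScalarTower k F0 F] [IsScalarTower k F K]
  [IsScalarTower k F0 K] [IsScalarTower F0 F K] [IsFF k F0] [IsFF k F]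
  [IsFF k K] [FiniteDimensional F0 K] [FiniteDimensional F0 F] [IsGalois F K]

theorem core' {w : K} (hw0 : w ≠ 0) {d : ℕ} (hd : 0 < d) {δ : F} (hwd : w ^ d = algebraMap F K δ)
    (u : (K ≃ₐ[F] K) → k) (hu : ∀ g : K ≃ₐ[F] K, g w = algebraMap k K (u g) * w)
    {t0 : F0} (ht : Transcendental k t0)
    (h1 : Module.finrank k⟮t0⟯ F0 = 1) {T : Type} [Fintype T] [DecidableEq T]
    (Ψ : (T → Place k K) → k) (hk : Kill ((curve k K).pow T) Ψ)
    (hsym : ∀ (x : T → Place k K) (π : Equiv.Perm T), Ψ (fun i => x (π i)) = Ψ x)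
    (heq : ∀ (x : T → Place k K) (g : T → (K ≃ₐ[F] K)),
      Ψ (fun i => actF (g i) (x i)) = (∏ i, u (g i)) * Ψ x)
    (s : T → Place k K)
    (hs : polar (algebraMap F0 F t0) ≤ tot fun i => under F (s i))
    (c c' : k) (v1 : Place k F) (hz : ∀ x : T → Place k K, (∃ i, under F (x i) = v1) → Ψ x = 0)
    (hv1' : 0 < v1.ord (algebraMap F0 F (t0 - algebraMap k F0 c))) (a : ℤ)
    (hpar : ∀ v : Place k F0, (d : ℤ) ∣ v.ord (Algebra.norm F0 δ) - a *
      (v.ord (t0 - algebraMap k F0 c) - v.ord (t0 - algebraMap k F0 c'))) :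
    Ψ s = 0 := by
  classical
  have hc0 : CharZero F0 := charZero_of_injective_algebraMap (algebraMap k F0).injective
  have hfd : FiniteDimensional F K := FiniteDimensional.right F0 F K
  have hδ0 : δ ≠ 0 := by
    rintro rfl
    rw [map_zero] at hwd
    exact hw0 (pow_eq_zero_iff hd.ne' |>.1 hwd)
  -- the function `u`
  have hu1 : u 1 = 1 := by
    have h2 := hu 1
    rw [AlgEquiv.one_apply] at h2
    have h3 : algebraMap k K (u 1) = 1 := by
      have h4 : (algebraMap k K (u 1) - 1) * w = 0 := by linear_combination -h2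
      exact sub_eq_zero.1 ((mul_eq_zero.1 h4).resolve_right hw0)
    exact (algebraMap k K).injective (by rw [h3, map_one])
  have husymm : ∀ g : K ≃ₐ[F] K, u g.symm * u g = 1 := by
    intro g
    have h2 : g (g.symm w) = w := g.apply_symm_apply w
    rw [hu, map_mul, hu, IsScalarTower.algebraMap_apply k F K, AlgEquiv.commutes,
      ← IsScalarTower.algebraMap_apply k F K, ← mul_assoc, ← map_mul] at h2
    have h3 : algebraMap k K (u g.symm * u g) = 1 := by
      have h4 : (algebraMap k K (u g.symm * u g) - 1) * w = 0 := by linear_combination h2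
      exact sub_eq_zero.1 ((mul_eq_zero.1 h4).resolve_right hw0)
    exact (algebraMap k K).injective (by rw [h3, map_one])
  obtain ⟨pt, oo, hp⟩ := exists_ratPl t0 ht h1
  have hN0 : Algebra.norm F0 δ ≠ 0 := Algebra.norm_ne_zero_iff.2 hδ0
  obtain ⟨r, hr0, hr⟩ := norm_form' hp ht _ hN0 c c' hd a hpar
  obtain ⟨M, _, _, _, _, _, hcard, hN, ⟨z, hz'⟩, φ, hφ⟩ := exists_galois' F0 F K
    ((t0 - algebraMap k F0 c) / (t0 - algebraMap k F0 c')) hd
  let _ : Algebra k M := ((algebraMap F0 M).comp (algebraMap k F0)).toAlgebra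
  have : IsScalarTower k F0 M := IsScalarTower.of_algebraMap_eq fun _ => rfl
  have : IsFF k M := isFF_of_finite (F := F0)
  have hcM : CharZero M := charZero_of_injective_algebraMap (algebraMap k M).injective
  -- the product of the roots
  set W : M := ∏ ψ : F →ₐ[F0] M, φ ψ w with hW
  have hW0 : W ≠ 0 := Finset.prod_ne_zero_iff.2 fun ψ _ => by
    rw [Ne, map_eq_zero]; exact hw0
  have hW2 : W ^ d = algebraMap F0 M (r ^ d * ((t0 - algebraMap k F0 c) /
      (t0 - algebraMap k F0 c')) ^ a) := by
    rw [← hr, hN, hW, ← Finset.prod_pow]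
    refine Finset.prod_congr rfl fun ψ _ => ?_
    rw [← map_pow, hwd, hφ]
  obtain ⟨f, hf0, hfz, hfp, hfe, hfγ⟩ := exists_fun' ht hr0 c c' hd a hW2 hz'
  -- the counting lemma at zeros and poles
  have key : ∀ (a : F0), Transcendental k a → Module.finrank k⟮a⟯ F0 = 1 → ∀ P : Place k M,
      0 < P.ord (algebraMap F0 M a) → ∀ v : Place k F,
      tot (fun ψ : F →ₐ[F0] M => pb (ψ.restrictScalars k) P) v =
        max (v.ord (algebraMap F0 F a)) 0 := by
    intro a ha ha1 P hP v
    have h1 : 0 < (under F0 P).ord a := by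
      rw [ord_under] at hP
      have h3 : (0 : ℤ) < ram F0 P := by exact_mod_cast (ram_spec (F := F0) P).1
      by_contra hcon
      push Not at hcon
      nlinarith
    have h2 := place_gen a ha ha1 _ h1
    exact count hN P a h2.1 h2.2 v
  have ht' : Transcendental k t0⁻¹ := by
    intro h
    apply ht
    have := h.inv
    rwa [inv_inv] at this
  have hr' : Module.finrank k⟮t0⁻¹⟯ F0 = 1 := by rw [adjoin_inv]; exact h1
  have keyp : ∀ P : Place k M, P.ord (algebraMap F0 M t0) < 0 →
      tot (fun ψ : F →ₐ[F0] M => pb (ψ.restrictScalars k) P) = polar (algebraMap F0 F t0) := by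
    intro P hP
    ext v
    rw [key t0⁻¹ ht' hr' P (by rw [map_inv₀, P.ord_inv]; omega), polar_apply, map_inv₀,
      v.ord_inv]
  -- degrees
  obtain ⟨P1, hP1⟩ := hfe
  have hdeg : dg (polar (k := k) (algebraMap F0 F t0)) = Module.finrank F0 F := by
    rw [← keyp P1 (hfp P1 hP1), dg_tot, hcard]
  have hle : 0 ≤ (tot fun i => under F (s i)) - polar (algebraMap F0 F t0) := sub_nonneg.2 hs
  have hdeg' : dg ((tot fun i => under F (s i)) - polar (algebraMap F0 F t0)) =
      (Fintype.card T : ℤ) - Module.finrank F0 F := by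
    rw [map_sub, dg_tot, hdeg]
  have hdeg0 : 0 ≤ dg ((tot fun i => under F (s i)) - polar (algebraMap F0 F t0)) := by
    simp only [dg, Finsupp.liftAddHom_apply]
    exact Finset.sum_nonneg fun w _ => hle w
  have hmle : Module.finrank F0 F ≤ Fintype.card T := by
    rw [hdeg'] at hdeg0
    omega
  obtain ⟨S, hS⟩ := enum (ι := Fin (Fintype.card T - Module.finrank F0 F)) _ hle (by
    rw [hdeg', Fintype.card_fin]
    push_cast [hmle]
    rfl)
  choose S' hS' using fun j => exists_place_over (K := K) (S j)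
  have e : T ≃ (F →ₐ[F0] M) ⊕ Fin (Fintype.card T - Module.finrank F0 F) :=
    Fintype.equivOfCardEq (by rw [Fintype.card_sum, hcard, Fintype.card_fin]; omega)
  let y0 : Place k M → (F →ₐ[F0] M) ⊕ Fin (Fintype.card T - Module.finrank F0 F) → Place k K :=
    fun P => Sum.elim (fun ψ => pb ((φ ψ).restrictScalars k) P) S'
  let y : Place k M → T → Place k K := fun P i => y0 P (e i)
  have hy : ((curve k K).pow T).IsMor M y := by
    intro i
    change (curve k K).IsMor M (fun P => y0 P (e i))
    rcases e i with ψ | j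
    · right
      refine ⟨(φ ψ).restrictScalars k, fun P => ?_⟩
      exact pb_spec ((φ ψ).restrictScalars k) P
    · left
      exact ⟨S' j, fun P => rfl⟩
  have hpbu : ∀ (ψ : F →ₐ[F0] M) (P : Place k M),
      under F (pb ((φ ψ).restrictScalars k) P) = pb (ψ.restrictScalars k) P := fun ψ P =>
    under_pb ((φ ψ).restrictScalars k) (ψ.restrictScalars k) (fun x => hφ ψ x) P
  -- sums of the places below
  have hunder : ∀ P : Place k M, P.ord (algebraMap F0 M t0) < 0 →
      (tot fun i => under F (y P i)) = tot fun i => under F (s i) := by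
    intro P hP
    have h2 : (fun i => under F (y P i)) =
        fun i => Sum.elim (fun ψ : F →ₐ[F0] M => pb (ψ.restrictScalars k) P) S (e i) := by
      funext i
      change under F (y0 P (e i)) = _
      rcases e i with ψ | j
      · exact hpbu ψ P
      · exact hS' j
    rw [h2, tot_comp e, tot_sum, keyp P hP, hS]
    abel
  have hzero : ∀ P : Place k M, 0 < P.ord f → Ψ (y P) = 0 := by
    intro P hP
    have h2 := hfz P hP
    have h3 := key _ (transc_sub_const ht c) (by rw [adjoin_sub_const]; exact h1) P h2 v1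
    rw [max_eq_left hv1'.le, tot_apply] at h3
    have h4 : 0 < (Finset.univ.filter fun ψ : F →ₐ[F0] M =>
      pb (ψ.restrictScalars k) P = v1).card := by omega
    obtain ⟨ψ, hψ⟩ := Finset.card_pos.1 h4
    rw [Finset.mem_filter] at hψ
    refine hz _ ⟨e.symm (Sum.inl ψ), ?_⟩
    have h5 : y P (e.symm (Sum.inl ψ)) = pb ((φ ψ).restrictScalars k) P := by
      change y0 P (e (e.symm (Sum.inl ψ))) = _
      rw [Equiv.apply_symm_apply]
      rfl
    rw [h5, hpbu, hψ.2]
  -- conjugate places
  have hconj : ∀ P : Place k M, P.ord f < 0 → Ψ (y P) = Ψ (y P1) := by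
    intro P hP
    have h2 : under F0 P1 = under F0 P := by
      have h3 : ∀ P : Place k M, P.ord f < 0 → under F0 P = oo := by
        intro P hP
        apply hp.neg
        have h4 := hfp P hP
        rw [ord_under] at h4
        have h3 : (0 : ℤ) < ram F0 P := by exact_mod_cast (ram_spec (F := F0) P).1
        by_contra hcon
        push Not at hcon
        nlinarith
      rw [h3 P1 hP1, h3 P hP]
    obtain ⟨γ, hγ⟩ := orbit_gal P1 P h2
    have h3 := hfγ γ P1 hP1 (by rw [← hγ]; exact hP)
    -- the permutation of the embeddings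
    let κ : (F →ₐ[F0] M) ≃ (F →ₐ[F0] M) :=
      { toFun := fun ψ => γ.symm.toAlgHom.comp ψ
        invFun := fun ψ => γ.toAlgHom.comp ψ
        left_inv := fun ψ => by
          ext x
          exact γ.apply_symm_apply (ψ x)
        right_inv := fun ψ => by
          ext x
          exact γ.symm_apply_apply (ψ x) }
    have h4 : ∀ ψ : F →ₐ[F0] M, ∃ g : K ≃ₐ[F] K, ∀ x, γ.symm (φ ψ x) = φ (κ ψ) (g x) := by
      intro ψ
      refine exists_aut F K M ((γ.symm.toAlgHom.comp (φ ψ)).toRingHom) (φ (κ ψ)).toRingHom ?_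
      intro x
      change γ.symm (φ ψ (algebraMap F K x)) = φ (κ ψ) (algebraMap F K x)
      rw [hφ, hφ]
      rfl
    choose g hg using h4
    have h5 : ∏ ψ, u (g ψ) = 1 := by
      have hkM : ∀ (ψ : F →ₐ[F0] M) (b : k), φ ψ (algebraMap k K b) = algebraMap k M b := by
        intro ψ b
        rw [IsScalarTower.algebraMap_apply k F0 K, AlgHom.commutes,
          ← IsScalarTower.algebraMap_apply]
      have h6 : γ.symm W = algebraMap k M (∏ ψ, u (g ψ)) * W := by
        rw [hW, map_prod, map_prod, Finset.prod_congr rfl fun ψ _ => hg ψ w,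
          ← Equiv.prod_comp κ fun ψ => φ ψ w, ← Finset.prod_mul_distrib]
        refine Finset.prod_congr rfl fun ψ _ => ?_
        rw [hu, map_mul, hkM]
      rw [h3] at h6
      have h7 : algebraMap k M (∏ ψ, u (g ψ)) = 1 := by
        have h8 : (algebraMap k M (∏ ψ, u (g ψ)) - 1) * W = 0 := by linear_combination -h6
        exact sub_eq_zero.1 ((mul_eq_zero.1 h8).resolve_right hW0)
      exact (algebraMap k M).injective (by rw [h7, map_one])
    have h6 : ∏ ψ, u (g ψ).symm = 1 := by
      have h7 : (∏ ψ, u (g ψ).symm) * ∏ ψ, u (g ψ) = 1 := by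
        rw [← Finset.prod_mul_distrib]
        exact Finset.prod_eq_one fun ψ _ => husymm (g ψ)
      rwa [h5, mul_one] at h7
    let π : Equiv.Perm T := (e.trans (Equiv.sumCongr κ (Equiv.refl _))).trans e.symm
    let a' : T → (K ≃ₐ[F] K) := fun i => Sum.elim (fun ψ => (g ψ).symm) (fun _ => 1) (e i)
    have h7 : y P = fun i => actF (a' i) (y P1 (π i)) := by
      funext i
      change y0 P (e i) = actF (Sum.elim (fun ψ => (g ψ).symm) (fun _ => 1) (e i))
        (y0 P1 (e (e.symm (Equiv.sumCongr κ (Equiv.refl _) (e i)))))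
      rw [Equiv.apply_symm_apply, hγ]
      rcases e i with ψ | j
      · change pb ((φ ψ).restrictScalars k) (act (γ.restrictScalars k) P1) =
          actF (g ψ).symm (pb ((φ (κ ψ)).restrictScalars k) P1)
        rw [pb_act]
        obtain ⟨c, hc, hc'⟩ := pb_spec ((φ (κ ψ)).restrictScalars k) P1
        refine pb_eq hc fun x => ?_
        change P1.ord (γ.symm (φ ψ x)) = _
        rw [hg ψ x]
        exact hc' (g ψ x)
      · change S' j = actF 1 (S' j)
        exact (act_one (S' j)).symm
    rw [h7, heq (fun i => y P1 (π i)) a', hsym]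
    have h8 : ∏ i, u (a' i) = 1 := by
      change ∏ i, u (Sum.elim (fun ψ => (g ψ).symm) (fun _ => 1) (e i)) = 1
      rw [Equiv.prod_comp e fun z => u (Sum.elim (fun ψ => (g ψ).symm) (fun _ => 1) z),
        Fintype.prod_sum_type]
      simp only [Sum.elim_inl, Sum.elim_inr]
      rw [h6, hu1, Finset.prod_const_one, one_mul]
    rw [h8, one_mul]
  have hfam := family' hk y hy hf0 hzero _ hconj ⟨P1, hP1⟩
  -- the configuration `s`
  obtain ⟨π, hπ⟩ := exists_perm (hunder P1 (hfp P1 hP1))
  have h9 : ∀ i, ∃ b : K ≃ₐ[F] K, s i = actF b (y P1 (π i)) := by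
    intro i
    obtain ⟨b, hb⟩ := orbit_gal (F0 := F) (y P1 (π i)) (s i) (congrFun hπ i).symm
    exact ⟨b, hb⟩
  choose b hb using h9
  have h10 : s = fun i => actF (b i) (y P1 (π i)) := funext hb
  rw [h10, heq (fun i => y P1 (π i)) b, hsym, hfam, mul_zero]

end Pool.Agent.J4.H18.CV
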