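import Pool.Agent.J4.H18.CV.C

/-!
# Vanishing theorems for equivariant symmetric functions on powers of a curve
-/

set_option autoImplicit false

open FF IntermediateField Pool.Agent.W603.LV Pool.Agent.W603.PV Pool.Agent.J4.H17.ZC
  Pool.Agent.N162.CV Pool.Agent.N75.CV Pool.Agent.J4.H82.PV

namespace Pool.Agent.J4.H18.CV

variable {k : Type} [Field k] [CharZero k] [IsAlgClosed k] {F K : Type} [Field F]
  [Field K] [Algebra k F] [Algebra k K] [Algebra F K] [IsScalarTower k F K] [IsFF k F] [IsFF k K]
  [FiniteDimensional F K] [IsGalois F K]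

/-- Vanishing for a cyclic cover with pairs of opposite branch points. -/
theorem vanish_pairs {w : K} (hw0 : w ≠ 0) {d : ℕ} (hd : 0 < d) {δ : F}
    (hwd : w ^ d = algebraMap F K δ)
    (u : (K ≃ₐ[F] K) → k) (hu : ∀ g : K ≃ₐ[F] K, g w = algebraMap k K (u g) * w)
    {g' : ℕ} (hg' : HasGenus k F g') {T : Type} [Fintype T] [DecidableEq T]
    (Ψ : (T → Place k K) → k) (hk : Kill ((curve k K).pow T) Ψ)
    (hsym : ∀ (x : T → Place k K) (π : Equiv.Perm T), Ψ (fun i => x (π i)) = Ψ x)
    (heq : ∀ (x : T → Place k K) (g : T → (K ≃ₐ[F] K)),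
      Ψ (fun i => actF (g i) (x i)) = (∏ i, u (g i)) * Ψ x)
    {m : ℕ} (b : Fin (m + 1) × Bool → Place k F) (hbinj : Function.Injective b)
    (hB : ∀ v, (∀ j, b j ≠ v) → (d : ℤ) ∣ v.ord δ)
    (hpair : ∀ j, (d : ℤ) ∣ (b (j, false)).ord δ + (b (j, true)).ord δ)
    (hz : ∀ j, ∀ x : T → Place k K, (∃ i, under F (x i) = b j) → Ψ x = 0)
    (hT : m + 1 + g' ≤ Fintype.card T) (s : T → Place k K) : Ψ s = 0 := by
  classical
  by_cases hsb : ∃ j i, under F (s i) = b j
  · obtain ⟨j, hj⟩ := hsb
    exact hz j s hj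
  push Not at hsb
  have hδ0 : δ ≠ 0 := by
    rintro rfl
    rw [map_zero] at hwd
    exact hw0 (pow_eq_zero_iff hd.ne' |>.1 hwd)
  -- the divisor
  set E : Place k F →₀ ℤ := tot fun i => under F (s i) with hE
  have hEb : ∀ j, E (b j) = 0 := by
    intro j
    rw [hE, tot_apply, Nat.cast_eq_zero, Finset.card_eq_zero, Finset.filter_eq_empty_iff]
    intro i _ h
    exact hsb j i h
  have hEd : ddeg E = Fintype.card T := by rw [ddeg_eq_dg, hE, dg_tot]
  have hell := ell_lower hg' E
  obtain ⟨h, hhE, hh, hhb⟩ := exists_paired (J := Fin m) E (fun j => b (j.castSucc, false))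
    (fun j => b (j.castSucc, true)) (fun j => (hEb _).le) (fun j => (hEb _).le) (by
      rw [Fintype.card_fin]
      omega)
  have hh0 : h ≠ 0 := by
    rintro rfl
    exact hh isAlgebraic_zero
  have hhP := hhE.resolve_left hh0
  -- the rational function field
  let t : k⟮h⟯ := AdjoinSimple.gen k h
  have hht : algebraMap k⟮h⟯ F t = h := rfl
  have ht : Transcendental k t := by
    rw [← transcendental_algebraMap_iff (algebraMap k⟮h⟯ F).injective]
    exact hh
  have hr : Module.finrank k⟮t⟯ k⟮h⟯ = 1 := finrank_gen h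
  have hfd : FiniteDimensional k⟮t⟯ k⟮h⟯ := Module.finite_of_finrank_pos (by rw [hr]; exact one_pos)
  have : IsFF k k⟮h⟯ := IsFF.of_finite ht hfd
  have : FiniteDimensional k⟮h⟯ F := IsFF.finite hh
  have : IsScalarTower k⟮h⟯ F K := inferInstance
  have : IsScalarTower k k⟮h⟯ K := inferInstance
  have : FiniteDimensional k⟮h⟯ K := FiniteDimensional.trans k⟮h⟯ F K
  -- the values at the last pair
  have hreg : ∀ j, ∃ c : k, Ge (b j) 1 (h - algebraMap k F c) := by
    intro j
    apply Pool.Agent.W603.LV.exists_const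
    right
    have := hhP (b j)
    rw [hEb] at this
    omega
  have hne : ∀ c : k, h - algebraMap k F c ≠ 0 := fun c hc => by
    have := transc_sub_const hh c
    rw [hc] at this
    exact this isAlgebraic_zero
  obtain ⟨c, hc⟩ := hreg (Fin.last m, false)
  obtain ⟨c', hc'⟩ := hreg (Fin.last m, true)
  obtain ⟨pt, oo, hp⟩ := exists_ratPl t ht hr
  have hpt : ∀ (v : Place k F) (c : k), Ge v 1 (h - algebraMap k F c) → under k⟮h⟯ v = pt c := by
    intro v c hvc
    apply hp.uniq
    have h1 := hvc.resolve_left (hne c)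
    have h2 : h - algebraMap k F c = algebraMap k⟮h⟯ F (t - algebraMap k k⟮h⟯ c) := by
      rw [map_sub, hht, ← IsScalarTower.algebraMap_apply]
    rw [h2, ord_under] at h1
    have h3 : (0 : ℤ) < ram k⟮h⟯ v := by exact_mod_cast (ram_spec (F := k⟮h⟯) v).1
    by_contra hcon
    push Not at hcon
    nlinarith
  refine core' hw0 hd hwd u hu ht hr Ψ hk hsym heq s ?_ c c' (b (Fin.last m, false)) (hz _) ?_
    ((b (Fin.last m, false)).ord δ) ?_
  · intro v
    rw [polar_apply, hht]
    have h1 := hhP v
    have h2 : 0 ≤ E v := tot_nonneg _ v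
    change _ ≤ E v
    exact max_le (by omega) h2
  · rw [map_sub, hht, ← IsScalarTower.algebraMap_apply]
    have := hc.resolve_left (hne c)
    omega
  · intro v
    have h1 := norm_ord (F0 := k⟮h⟯) hδ0 (d := d) (Finset.univ.image b) (by
      intro v hv
      refine hB v fun j hj => hv ?_
      rw [Finset.mem_image]
      exact ⟨j, Finset.mem_univ _, hj⟩) v
    rw [Finset.sum_image (fun x _ y _ hxy => hbinj hxy), Fintype.sum_prod_type,
      Fin.sum_univ_castSucc] at h1
    simp only [Fintype.sum_bool] at h1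
    have h3 : ∀ j : Fin m, (d : ℤ) ∣
        ((if under k⟮h⟯ (b (j.castSucc, true)) = v then (b (j.castSucc, true)).ord δ else 0) +
          (if under k⟮h⟯ (b (j.castSucc, false)) = v then (b (j.castSucc, false)).ord δ
            else 0)) := by
      intro j
      obtain ⟨a, ha, ha'⟩ := hhb j
      rw [hpt _ a ha, hpt _ a ha']
      split_ifs
      · rw [add_comm]
        exact hpair _
      · exact dvd_zero _
    have h4 := Finset.dvd_sum fun j (_ : j ∈ (Finset.univ : Finset (Fin m))) => h3 j
    rw [hpt _ c hc, hpt _ c' hc'] at h1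
    have h5 := hpair (Fin.last m)
    rw [hp.div, hp.div]
    simp only [Finsupp.single_apply]
    have h6 := (h1.add h4)
    set y := (b (Fin.last m, false)).ord δ with hy
    set y' := (b (Fin.last m, true)).ord δ with hy'
    have h7 : (d : ℤ) ∣ (if pt c' = v then y' else 0) + (if pt c' = v then y else 0) := by
      split_ifs
      · rw [add_comm]; exact h5
      · exact dvd_zero _
    have h8 := h6.add h7
    have h9 : ∀ (N S o : ℤ) (p q : Prop) [Decidable p] [Decidable q],
        N - (S + ((if q then y' else 0) + if p then y else 0)) + S +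
          ((if q then y' else 0) + if q then y else 0) -
          2 * (if q then y' else 0) + 2 * (if q then y' else 0) =
        N - y * (((if p then 1 else 0) - o) - ((if q then 1 else 0) - o)) := by
      intro N S o p q _ _
      split_ifs <;> ring
    rw [← h9 _ (∑ i : Fin m, ((if under k⟮h⟯ (b (i.castSucc, true)) = v
      then (b (i.castSucc, true)).ord δ else 0) + (if under k⟮h⟯ (b (i.castSucc, false)) = v
      then (b (i.castSucc, false)).ord δ else 0))) _ (pt c = v) (pt c' = v), sub_add_cancel]
    exact h8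

/-- Vanishing for invariant functions which vanish over a point: the theorem of Bloch. -/
theorem vanish_triv {g' : ℕ} (hg' : HasGenus k F g') {T : Type} [Fintype T] [DecidableEq T]
    (Ψ : (T → Place k K) → k) (hk : Kill ((curve k K).pow T) Ψ)
    (hsym : ∀ (x : T → Place k K) (π : Equiv.Perm T), Ψ (fun i => x (π i)) = Ψ x)
    (heq : ∀ (x : T → Place k K) (g : T → (K ≃ₐ[F] K)),
      Ψ (fun i => actF (g i) (x i)) = Ψ x)
    (v1 : Place k F) (hz : ∀ x : T → Place k K, (∃ i, under F (x i) = v1) → Ψ x = 0)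
    (hT : 1 + g' ≤ Fintype.card T) (s : T → Place k K) : Ψ s = 0 := by
  classical
  by_cases hsb : ∃ i, under F (s i) = v1
  · exact hz s hsb
  push Not at hsb
  -- the divisor
  set E : Place k F →₀ ℤ := tot fun i => under F (s i) with hE
  have hEb : E v1 = 0 := by
    rw [hE, tot_apply, Nat.cast_eq_zero, Finset.card_eq_zero, Finset.filter_eq_empty_iff]
    intro i _ h
    exact hsb i h
  have hEd : ddeg E = Fintype.card T := by rw [ddeg_eq_dg, hE, dg_tot]
  have hell := ell_lower hg' E
  obtain ⟨h, hhE, hh, -⟩ := exists_paired (J := Fin 0) E Fin.elim0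
    Fin.elim0 (fun j => j.elim0) (fun j => j.elim0) (by
      rw [Fintype.card_fin]
      push_cast
      omega)
  have hh0 : h ≠ 0 := by
    rintro rfl
    exact hh isAlgebraic_zero
  have hhP := hhE.resolve_left hh0
  -- the rational function field
  let t : k⟮h⟯ := AdjoinSimple.gen k h
  have hht : algebraMap k⟮h⟯ F t = h := rfl
  have ht : Transcendental k t := by
    rw [← transcendental_algebraMap_iff (algebraMap k⟮h⟯ F).injective]
    exact hh
  have hr : Module.finrank k⟮t⟯ k⟮h⟯ = 1 := finrank_gen h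
  have hfd : FiniteDimensional k⟮t⟯ k⟮h⟯ := Module.finite_of_finrank_pos (by rw [hr]; exact one_pos)
  have : IsFF k k⟮h⟯ := IsFF.of_finite ht hfd
  have : FiniteDimensional k⟮h⟯ F := IsFF.finite hh
  have : IsScalarTower k⟮h⟯ F K := inferInstance
  have : IsScalarTower k k⟮h⟯ K := inferInstance
  have : FiniteDimensional k⟮h⟯ K := FiniteDimensional.trans k⟮h⟯ F K
  have hreg : ∃ c : k, Ge v1 1 (h - algebraMap k F c) := by
    apply Pool.Agent.W603.LV.exists_const
    right
    have := hhP v1
    rw [hEb] at this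
    omega
  have hne : ∀ c : k, h - algebraMap k F c ≠ 0 := fun c hc => by
    have := transc_sub_const hh c
    rw [hc] at this
    exact this isAlgebraic_zero
  obtain ⟨c, hc⟩ := hreg
  refine core' (w := 1) (d := 1) (δ := 1) one_ne_zero one_pos (by rw [one_pow, map_one])
    (fun _ => 1) (fun g => by rw [map_one, map_one, mul_one]) ht hr Ψ hk hsym
    (fun x g => by rw [heq, Finset.prod_const_one, one_mul]) s ?_ c c v1 hz ?_ 0 ?_
  · intro v
    rw [polar_apply, hht]
    have h1 := hhP v
    have h2 : 0 ≤ E v := tot_nonneg _ v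
    change _ ≤ E v
    exact max_le (by omega) h2
  · rw [map_sub, hht, ← IsScalarTower.algebraMap_apply]
    have := hc.resolve_left (hne c)
    omega
  · intro v
    exact ⟨_, (one_mul _).symm⟩

end Pool.Agent.J4.H18.CV
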