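import Pool.Agent.J4.H18.CV.D

/-!
# Multilinear extensions of functions on powers
-/

set_option autoImplicit false

open FF IntermediateField Pool.Agent.J4.H17.ZC

namespace Pool.Agent.J4.H18.CV

section

variable {k : Type} [Field k] {ι : Type} [Fintype ι] [dι : DecidableEq ι] {A B : Type}

/-- the exterior product of zero-cycles with coefficients in `k` -/
noncomputable def extK (a : ι → A →₀ k) : (ι → A) →₀ k :=
  Finsupp.onFinset (Fintype.piFinset fun i => (a i).support) (fun x => ∏ i, a i (x i)) (by
    intro x hx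
    rw [Fintype.mem_piFinset]
    intro i
    rw [Finsupp.mem_support_iff]
    intro h
    exact hx (Finset.prod_eq_zero (Finset.mem_univ i) h))

theorem extK_apply (a : ι → A →₀ k) (x : ι → A) : extK a x = ∏ i, a i (x i) := rfl

theorem extK_single (x : ι → A) :
    extK (fun i => Finsupp.single (x i) (1 : k)) = Finsupp.single x 1 := by
  classical
  ext y
  rw [extK_apply, Finsupp.single_apply]
  split_ifs with h
  · subst h; simp
  · obtain ⟨i, hi⟩ := Function.ne_iff.1 h
    refine Finset.prod_eq_zero (Finset.mem_univ i) ?_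
    rw [Finsupp.single_eq_of_ne (Ne.symm hi)]

variable (ι A k) in
/-- the exterior product as a multilinear map -/
noncomputable def extKM : MultilinearMap k (fun _ : ι => A →₀ k) ((ι → A) →₀ k) where
  toFun := extK
  map_update_add' := by
    intro inst m i x y
    have hinst : inst = dι := Subsingleton.elim _ _
    subst hinst
    ext z
    rw [Finsupp.add_apply, extK_apply, extK_apply, extK_apply]
    have h : ∀ w : A →₀ k, ∏ j, (Function.update m i w) j (z j) =
        w (z i) * ∏ j ∈ Finset.univ.erase i, m j (z j) := by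
      intro w
      rw [← Finset.mul_prod_erase _ _ (Finset.mem_univ i), Function.update_self]
      congr 1
      refine Finset.prod_congr rfl fun j hj => ?_
      rw [Function.update_of_ne (Finset.ne_of_mem_erase hj)]
    rw [h, h, h, Finsupp.add_apply, add_mul]
  map_update_smul' := by
    intro inst m i c x
    have hinst : inst = dι := Subsingleton.elim _ _
    subst hinst
    ext z
    rw [Finsupp.smul_apply, extK_apply, extK_apply]
    have h : ∀ w : A →₀ k, ∏ j, (Function.update m i w) j (z j) =
        w (z i) * ∏ j ∈ Finset.univ.erase i, m j (z j) := by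
      intro w
      rw [← Finset.mul_prod_erase _ _ (Finset.mem_univ i), Function.update_self]
      congr 1
      refine Finset.prod_congr rfl fun j hj => ?_
      rw [Function.update_of_ne (Finset.ne_of_mem_erase hj)]
    rw [h, h, Finsupp.smul_apply, smul_eq_mul, smul_eq_mul, mul_assoc]

/-- the multilinear extension of a function on a power -/
noncomputable def ML (Λ : (ι → A) → k) : MultilinearMap k (fun _ : ι => A →₀ k) k :=
  (Finsupp.linearCombination k Λ).compMultilinearMap (extKM k ι A)

theorem ML_apply (Λ : (ι → A) → k) (a : ι → A →₀ k) :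
    ML Λ a = Finsupp.linearCombination k Λ (extK a) := rfl

theorem ML_single (Λ : (ι → A) → k) (x : ι → A) :
    ML Λ (fun i => Finsupp.single (x i) 1) = Λ x := by
  rw [ML_apply, extK_single, Finsupp.linearCombination_single, one_smul]

/-- Multilinear maps which agree at points are equal. -/
theorem ML_ext {f g : MultilinearMap k (fun _ : ι => A →₀ k) k}
    (h : ∀ x : ι → A, f (fun i => Finsupp.single (x i) 1) = g (fun i => Finsupp.single (x i) 1)) :
    f = g := by
  refine Module.Basis.ext_multilinear (fun _ => Finsupp.basisSingleOne) ?_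
  intro x
  simp only [Finsupp.coe_basisSingleOne]
  exact h x

/-- composition with linear maps given by operators on points -/
theorem ML_comp (Λ : (ι → B) → k) (e : ι → A → (B →₀ k)) (a : ι → A →₀ k) :
    ML Λ (fun i => Finsupp.linearCombination k (e i) (a i)) =
      ML (fun x : ι → A => ML Λ fun i => e i (x i)) a := by
  have h : (ML Λ).compLinearMap (fun i => Finsupp.linearCombination k (e i)) =
      ML (fun x : ι → A => ML Λ fun i => e i (x i)) := by
    refine ML_ext fun x => ?_
    rw [ML_single, MultilinearMap.compLinearMap_apply]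
    simp only [Finsupp.linearCombination_single, one_smul]
  exact DFunLike.congr_fun h a

end

section reg

variable {k : Type} [Field k] [CharZero k] {X Y : Var k}

/-- an operator from points to cycles given by finitely many regular maps -/
def RegE (X Y : Var k) (e : X.Pt → (Y.Pt →₀ k)) : Prop :=
  ∃ (J : Type) (_ : Fintype J) (c : J → k) (θ : J → X.Pt → Y.Pt),
    (∀ j, Reg (X := X) (Y := Y) (θ j)) ∧ ∀ x, e x = ∑ j, c j • Finsupp.single (θ j x) 1

theorem RegE.single : RegE X X (fun x => Finsupp.single x 1) :=
  ⟨Unit, inferInstance, fun _ => 1, fun _ x => x, fun _ _ _ _ _ hx => hx, fun x => by simp⟩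

theorem RegE.const (hY : Y.Const) (Z : Y.Pt →₀ k) : RegE X Y (fun _ => Z) := by
  classical
  refine ⟨{y // y ∈ Z.support}, inferInstance, fun y => Z y, fun y _ => y,
    fun y L _ _ x _ => hY L y, fun _ => ?_⟩
  rw [Finset.sum_coe_sort Z.support (fun y => Z y • Finsupp.single y (1 : k))]
  conv_lhs => rw [← Finsupp.sum_single Z]
  unfold Finsupp.sum
  exact Finset.sum_congr rfl fun y _ => by rw [Finsupp.smul_single, smul_eq_mul, mul_one]

theorem RegE.sub {e e' : X.Pt → (Y.Pt →₀ k)} (h : RegE X Y e) (h' : RegE X Y e') :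
    RegE X Y (fun x => e x - e' x) := by
  obtain ⟨J, _, c, θ, h1, h2⟩ := h
  obtain ⟨J', _, c', θ', h1', h2'⟩ := h'
  refine ⟨J ⊕ J', inferInstance, Sum.elim c (fun j => -c' j), Sum.elim θ θ', ?_, fun x => ?_⟩
  · rintro (j | j)
    · exact h1 j
    · exact h1' j
  · change e x - e' x = _
    rw [h2, h2', Fintype.sum_sum_type, sub_eq_add_neg, ← Finset.sum_neg_distrib]
    simp only [Sum.elim_inl, Sum.elim_inr, neg_smul]

theorem RegE.kill {ι : Type} [Fintype ι] [DecidableEq ι] {e : ι → X.Pt → (Y.Pt →₀ k)}
    (he : ∀ i, RegE X Y (e i)) {Λ : (ι → Y.Pt) → k} (hΛ : Kill (Y.pow ι) Λ) :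
    Kill (X.pow ι) (fun x : ι → X.Pt => ML Λ fun i => e i (x i)) := by
  classical
  choose J hJ c θ hθ hc using he
  have h1 : (fun x : ι → X.Pt => ML Λ fun i => e i (x i)) = fun x =>
      ∑ r : ∀ i, J i, (∏ i, c i (r i)) * Λ (fun i => θ i (r i) (x i)) := by
    funext x
    have h2 : (fun i => e i (x i)) = fun i => ∑ j, c i j • Finsupp.single (θ i j (x i)) (1 : k) :=
      funext fun i => hc i (x i)
    rw [h2, MultilinearMap.map_sum]
    refine Finset.sum_congr rfl fun r _ => ?_
    rw [MultilinearMap.map_smul_univ, ML_single, smul_eq_mul]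
  rw [h1]
  refine Kill.sum _ _ _ fun r _ => ?_
  exact Kill.comp (X := X.pow ι) (Y := Y.pow ι) (F := fun x i => θ i (r i) (x i))
    (fun L _ _ x hx i => hθ i (r i) L _ (hx i)) hΛ

end reg

section zeta

variable {k : Type} [Field k] {A B : Type}

/-- the image of a cycle with integral coefficients -/
noncomputable def toK (z : A →₀ ℤ) : A →₀ k :=
  Finsupp.mapRange (fun n : ℤ => (n : k)) Int.cast_zero z

theorem toK_apply (z : A →₀ ℤ) (a : A) : (toK z : A →₀ k) a = (z a : k) := by
  unfold toK; rw [Finsupp.mapRange_apply]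

theorem toK_zero : (toK (0 : A →₀ ℤ) : A →₀ k) = 0 := by
  ext a; rw [toK_apply]; simp

theorem toK_add (z z' : A →₀ ℤ) : (toK (z + z') : A →₀ k) = toK z + toK z' := by
  ext a; rw [Finsupp.add_apply, toK_apply, toK_apply, toK_apply, Finsupp.add_apply, Int.cast_add]

theorem toK_smul (n : ℤ) (z : A →₀ ℤ) : (toK (n • z) : A →₀ k) = (n : k) • toK z := by
  ext a
  rw [Finsupp.smul_apply, toK_apply, toK_apply, Finsupp.smul_apply, smul_eq_mul, smul_eq_mul,
    Int.cast_mul]

theorem toK_single (a : A) (n : ℤ) : (toK (Finsupp.single a n) : A →₀ k) = Finsupp.single a (n : k) := by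
  unfold toK
  rw [Finsupp.mapRange_single]

theorem lin_toK (Λ : A → k) (z : A →₀ ℤ) :
    Finsupp.linearCombination k Λ (toK z) = ev Λ z := by
  induction z using Finsupp.induction_linear with
  | zero => rw [toK_zero, map_zero, map_zero]
  | add u v hu hv => rw [toK_add, map_add, map_add, hu, hv]
  | single a n => rw [toK_single, Finsupp.linearCombination_single, ev_single, smul_eq_mul]

theorem toK_ext {n : ℕ} (a : Fin n → A →₀ ℤ) : (toK (ext a) : (Fin n → A) →₀ k) = extK fun i => toK (a i) := by
  ext x
  rw [toK_apply, ext_apply, extK_apply]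
  push_cast
  exact Finset.prod_congr rfl fun i _ => (toK_apply _ _).symm

theorem ev_ext {n : ℕ} (Λ : (Fin n → A) → k) (a : Fin n → A →₀ ℤ) :
    ev Λ (ext a) = ML Λ fun i => toK (a i) := by
  rw [← lin_toK, toK_ext]
  rfl

end zeta

section px

variable {k : Type} [Field k] {A B : Type}

/-- the product of two zero-cycles -/
noncomputable def pxK : (A →₀ k) →ₗ[k] (B →₀ k) →ₗ[k] ((A × B) →₀ k) :=
  Finsupp.lift _ k A fun s => Finsupp.lmapDomain k k fun t => (s, t)

theorem pxK_single_left (s : A) (W : B →₀ k) :
    pxK (Finsupp.single s (1 : k)) W = Finsupp.mapDomain (fun t => (s, t)) W := by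
  unfold pxK
  rw [Finsupp.lift_apply, Finsupp.sum_single_index (by rw [zero_smul]), one_smul]
  rfl

theorem pxK_single (s : A) (t : B) :
    pxK (Finsupp.single s (1 : k)) (Finsupp.single t 1) = Finsupp.single (s, t) 1 := by
  rw [pxK_single_left, Finsupp.mapDomain_single]

end px

end Pool.Agent.J4.H18.CV
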