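import Pool.Agent.J4.H18.CV.E

/-!
# Relations in powers of products of two curves from vanishing theorems on the curves
-/

set_option autoImplicit false

open FF IntermediateField Equiv Pool.Agent.J4.H17.ZC

namespace Pool.Agent.J4.H18.CV

/-- `comb_part` with values in a field of characteristic zero. -/
theorem comb_partK {Y : Type} [Fintype Y] [DecidableEq Y] {E : Type} [Field E] [CharZero E]
    {a b : ℕ} (A : Finset Y)
    (hn : a * b < A.card) (Φ : Perm Y → Perm Y → E)
    (h1 : ∀ T : Finset Y, T ⊆ A → T.card = a + 1 → ∀ u v, ∑ τ ∈ PT T, Φ (u * τ) v = 0)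
    (h2 : ∀ T : Finset Y, T ⊆ A → T.card = b + 1 → ∀ u v, ∑ τ ∈ PT T, Φ u (v * τ) = 0) :
    ∑ σ : Perm Y, ((Perm.sign σ : ℤ) : E) * Φ σ σ = 0 := by
  classical
  rw [← Module.forall_dual_apply_eq_zero_iff ℚ]
  intro f
  rw [map_sum]
  have h3 : ∀ σ : Perm Y, f (((Perm.sign σ : ℤ) : E) * Φ σ σ) =
      ((Perm.sign σ : ℤ) : ℚ) * f (Φ σ σ) := by
    intro σ
    rw [← zsmul_eq_mul, map_zsmul, zsmul_eq_mul]
  rw [Finset.sum_congr rfl fun σ _ => h3 σ]
  refine comb_part A hn (fun u v => f (Φ u v)) ?_ ?_
  · intro T hTA hT u v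
    rw [← map_sum, h1 T hTA hT u v, map_zero]
  · intro T hTA hT u v
    rw [← map_sum, h2 T hTA hT u v, map_zero]

/-- The symmetrized products of `d + 1` zero-cycles `e P` are killed. -/
def VanK (k : Type) [Field k] [CharZero k] {K : Type} [Field K] [Algebra k K]
    (e : Place k K → (Place k K →₀ k)) (d : ℕ) : Prop :=
  ∀ (T : Type) [Fintype T] [DecidableEq T], Fintype.card T = d + 1 →
    ∀ (Λ : (T → Place k K) → k), Kill ((curve k K).pow T) Λ → ∀ s : T → Place k K,
      ∑ σ : Perm T, ML Λ (fun i => e (s (σ i))) = 0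

section multi

variable {k : Type} [Field k] {K : Type} [Field K] [Algebra k K] [CharZero k]

/-- Fixed coordinates: the relation in a power where the coordinates outside of `T` are arbitrary
cycles. -/
theorem van_multiK {e : Place k K → (Place k K →₀ k)} {g : ℕ}
    (hg : VanK k e g) {ι : Type} [Fintype ι] [DecidableEq ι] (T : Finset ι)
    (hT : T.card = g + 1) (s : ι → Place k K)
    (Λ : (ι → Place k K) → k) (hΛ : Kill ((curve k K).pow ι) Λ) (Z : ι → Place k K →₀ k) :
    ∑ τ ∈ PT T, ML Λ (fun i => if i ∈ T then e (s (τ i)) else Z i) = 0 := by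
  classical
  let e' : ι → Place k K → (Place k K →₀ k) := fun i x =>
    if i ∈ T then Finsupp.single x 1 else Z i
  have he' : ∀ i, RegE (curve k K) (curve k K) (e' i) := by
    intro i
    by_cases h : i ∈ T
    · have h1 : e' i = fun x => Finsupp.single x 1 := by
        funext x
        simp only [e', h, if_true]
      rw [h1]
      exact RegE.single
    · have h1 : e' i = fun _ => Z i := by
        funext x
        simp only [e', h, if_false]
      rw [h1]
      exact RegE.const (fun L _ _ Q => curve_const K L Q) (Z i)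
  let Λ1 : (ι → Place k K) → k := fun x => ML Λ fun i => e' i (x i)
  have hΛ1 : Kill ((curve k K).pow ι) Λ1 := RegE.kill he' hΛ
  let G : ({x // x ∈ T} → Place k K) → (ι → Place k K) := fun u i =>
    if h : i ∈ T then u ⟨i, h⟩ else s i
  have hG : Reg (X := (curve k K).pow {x // x ∈ T}) (Y := (curve k K).pow ι) G := by
    intro L _ _ x hx i
    by_cases h : i ∈ T
    · have h1 := hx ⟨i, h⟩
      have h2 : (fun P => G (x P) i) = fun P => x P ⟨i, h⟩ := by
        funext P
        simp only [G, h, dite_true]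
      rw [h2]
      exact h1
    · have h2 : (fun P => G (x P) i) = fun _ : Place k L => s i := by
        funext P
        simp only [G, h, dite_false]
      rw [h2]
      exact curve_const K L _
  have hΛ' : Kill ((curve k K).pow {x // x ∈ T}) (fun u => Λ1 (G u)) :=
    Kill.comp (X := (curve k K).pow {x // x ∈ T}) (Y := (curve k K).pow ι) hG hΛ1
  have h1 := hg {x // x ∈ T} (by rw [Fintype.card_coe, hT]) _ hΛ' (fun i => s i)
  have h2 : ML (fun u => Λ1 (G u)) =
      (ML Λ).domDomRestrict (fun i => i ∈ T) (fun i => Z i) := by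
    refine ML_ext fun x => ?_
    rw [ML_single, MultilinearMap.domDomRestrict_apply]
    change ML Λ (fun i => e' i (G x i)) = _
    congr 1
    funext i
    by_cases h : i ∈ T
    · simp only [e', G, h, dite_true, if_true]
    · simp only [e', G, h, dite_false, if_false]
  rw [h2] at h1
  rw [sum_PT, ← h1]
  refine Finset.sum_congr rfl fun σ _ => ?_
  rw [MultilinearMap.domDomRestrict_apply]
  congr 1
  funext i
  by_cases h : i ∈ T
  · rw [if_pos h, dif_pos h, Equiv.Perm.ofSubtype_apply_of_mem σ h]
  · rw [if_neg h, dif_neg h]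

end multi

section rel

variable {k : Type} [Field k] [CharZero k] {K1 K2 : Type} [Field K1] [Algebra k K1] [Field K2]
  [Algebra k K2] {n : ℕ}

theorem pxK_left {A B : Type} (Z : A →₀ k) (W : B →₀ k) : pxK Z W =
    Finsupp.linearCombination k (fun s => pxK (Finsupp.single s (1 : k)) W) Z := by
  induction Z using Finsupp.induction_linear with
  | zero => rw [map_zero, map_zero, LinearMap.zero_apply]
  | add u v hu hv => rw [map_add, map_add, LinearMap.add_apply, hu, hv]
  | single s c =>
    rw [Finsupp.linearCombination_single, ← LinearMap.smul_apply, ← map_smul,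
      Finsupp.smul_single, smul_eq_mul, mul_one]

theorem pxK_right {A B : Type} (Z : A →₀ k) (W : B →₀ k) : pxK Z W =
    Finsupp.linearCombination k (fun t => pxK Z (Finsupp.single t (1 : k))) W := by
  induction W using Finsupp.induction_linear with
  | zero => rw [map_zero, map_zero]
  | add u v hu hv => rw [map_add, map_add, hu, hv]
  | single s c =>
    rw [Finsupp.linearCombination_single, ← map_smul,
      Finsupp.smul_single, smul_eq_mul, mul_one]

theorem RegE.left (W : Place k K2 →₀ k) :
    RegE (curve k K1) ((curve k K1).prod (curve k K2)) fun s => pxK (Finsupp.single s (1 : k)) W := by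
  classical
  refine ⟨{t // t ∈ W.support}, inferInstance, fun t => W t, fun t s => (s, (t : Place k K2)),
    ?_, fun s => ?_⟩
  · intro t L _ _ x hx
    exact ⟨hx, curve_const K2 L _⟩
  · change pxK (Finsupp.single s (1 : k)) W =
      ∑ t : {t // t ∈ W.support}, W t • Finsupp.single (s, (t : Place k K2)) (1 : k)
    rw [pxK_right, Finset.sum_coe_sort W.support (fun t => W t • Finsupp.single (s, t) (1 : k)),
      Finsupp.linearCombination_apply]
    unfold Finsupp.sum
    exact Finset.sum_congr rfl fun t _ => congrArg (fun z => W t • z) (pxK_single s t)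

theorem RegE.right (Z : Place k K1 →₀ k) :
    RegE (curve k K2) ((curve k K1).prod (curve k K2)) fun t => pxK Z (Finsupp.single t (1 : k)) := by
  classical
  refine ⟨{s // s ∈ Z.support}, inferInstance, fun s => Z s, fun s t => ((s : Place k K1), t),
    ?_, fun t => ?_⟩
  · intro s L _ _ x hx
    exact ⟨curve_const K1 L _, hx⟩
  · change pxK Z (Finsupp.single t (1 : k)) =
      ∑ s : {s // s ∈ Z.support}, Z s • Finsupp.single ((s : Place k K1), t) (1 : k)
    rw [pxK_left, Finset.sum_coe_sort Z.support (fun s => Z s • Finsupp.single (s, t) (1 : k)),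
      Finsupp.linearCombination_apply]
    unfold Finsupp.sum
    exact Finset.sum_congr rfl fun s _ => congrArg (fun z => Z s • z) (pxK_single s t)

/-- The relations in the first factors. -/
theorem rel_leftK {e : Place k K1 → (Place k K1 →₀ k)} {g : ℕ} (hg : VanK k e g)
    (T : Finset (Fin n)) (hT : T.card = g + 1)
    (s : Fin n → Place k K1) (Z : Fin n → Place k K1 →₀ k)
    (W : Fin n → Place k K2 →₀ k) (Λ : (Fin n → Place k K1 × Place k K2) → k)
    (hΛ : Kill (((curve k K1).prod (curve k K2)).pow (Fin n)) Λ) :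
    ∑ τ ∈ PT T, ML Λ (fun i => pxK (if i ∈ T then e (s (τ i)) else Z i) (W i)) = 0 := by
  have h0 := RegE.kill (X := curve k K1) (Y := (curve k K1).prod (curve k K2))
    (fun i => RegE.left (K1 := K1) (W i)) hΛ
  have h1 := van_multiK hg T hT s _ h0 Z
  rw [← h1]
  refine Finset.sum_congr rfl fun τ _ => ?_
  refine Eq.trans ?_ (ML_comp Λ (fun i x => pxK (Finsupp.single x (1 : k)) (W i)) _)
  congr 1
  funext i
  exact pxK_left _ _

/-- The relations in the second factors. -/
theorem rel_rightK {e : Place k K2 → (Place k K2 →₀ k)} {g : ℕ} (hg : VanK k e g)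
    (T : Finset (Fin n)) (hT : T.card = g + 1)
    (t : Fin n → Place k K2) (Z : Fin n → Place k K1 →₀ k)
    (W : Fin n → Place k K2 →₀ k) (Λ : (Fin n → Place k K1 × Place k K2) → k)
    (hΛ : Kill (((curve k K1).prod (curve k K2)).pow (Fin n)) Λ) :
    ∑ τ ∈ PT T, ML Λ (fun i => pxK (Z i) (if i ∈ T then e (t (τ i)) else W i)) = 0 := by
  have h0 := RegE.kill (X := curve k K2) (Y := (curve k K1).prod (curve k K2))
    (fun i => RegE.right (K2 := K2) (Z i)) hΛ
  have h1 := van_multiK hg T hT t _ h0 W
  rw [← h1]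
  refine Finset.sum_congr rfl fun τ _ => ?_
  refine Eq.trans ?_ (ML_comp Λ (fun i x => pxK (Z i) (Finsupp.single x (1 : k))) _)
  congr 1
  funext i
  exact pxK_right _ _

/-- The bound `m` for a pair of operators. -/
def VanPairK (k : Type) [Field k] [CharZero k] {K1 K2 : Type} [Field K1] [Algebra k K1] [Field K2]
    [Algebra k K2] (e1 : Place k K1 → (Place k K1 →₀ k)) (e2 : Place k K2 → (Place k K2 →₀ k))
    (m : ℕ) : Prop :=
  (∃ d1 d2, VanK k e1 d1 ∧ VanK k e2 d2 ∧ m = d1 * d2) ∨ VanK k e1 0 ∨ VanK k e2 0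

theorem pair_vanishK {J : Type} (e1 : J → Place k K1 → (Place k K1 →₀ k))
    (e2 : J → Place k K2 → (Place k K2 →₀ k)) (m : J → ℕ)
    (hv : ∀ j, VanPairK k (e1 j) (e2 j) (m j)) [Fintype J]
    (hn : ∑ j, m j < n) (Λ : (Fin n → Place k K1 × Place k K2) → k)
    (hl : Kill (((curve k K1).prod (curve k K2)).pow (Fin n)) Λ) (κ : Fin n → J)
    (x : Fin n → Place k K1 × Place k K2) :
    ∑ σ : Perm (Fin n), ((Perm.sign σ : ℤ) : k) *
      ML Λ (fun i => pxK (e1 (κ i) (x (σ i)).1) (e2 (κ i) (x (σ i)).2)) = 0 := by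
  classical
  -- the pigeonhole principle
  obtain ⟨j, hj⟩ : ∃ j, m j < (Finset.univ.filter fun i => κ i = j).card := by
    by_contra hcon
    push Not at hcon
    have h3 : n = ∑ j, (Finset.univ.filter fun i => κ i = j).card := by
      have h4 := Finset.card_eq_sum_card_fiberwise (s := (Finset.univ : Finset (Fin n)))
        (t := (Finset.univ : Finset J)) (f := κ) (fun i _ => Finset.mem_univ _)
      rwa [Finset.card_univ, Fintype.card_fin] at h4
    have h4 : ∑ j, (Finset.univ.filter fun i => κ i = j).card ≤ ∑ j, m j :=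
      Finset.sum_le_sum fun j _ => hcon j
    omega
  -- the relations
  have hL : ∀ d, VanK k (e1 j) d → ∀ T : Finset (Fin n),
      T ⊆ (Finset.univ.filter fun i => κ i = j) → T.card = d + 1 → ∀ u v : Perm (Fin n),
      ∑ τ ∈ PT T, ML Λ (fun i => pxK (e1 (κ i) (x ((u * τ) i)).1) (e2 (κ i) (x (v i)).2)) = 0 := by
    intro d hd T hTA hT u v
    have h3 := rel_leftK hd T hT (fun i => (x (u i)).1)
      (fun i => e1 (κ i) (x (u i)).1) (fun i => e2 (κ i) (x (v i)).2) Λ hl
    rw [← h3]
    refine Finset.sum_congr rfl fun τ hτ => ?_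
    rw [mem_PT] at hτ
    refine congrArg (ML Λ) (funext fun i => ?_)
    by_cases hi : i ∈ T
    · rw [if_pos hi]
      have h4 : κ i = j := (Finset.mem_filter.1 (hTA hi)).2
      rw [h4]
      rfl
    · rw [if_neg hi, Perm.mul_apply, hτ i hi]
  have hR : ∀ d, VanK k (e2 j) d → ∀ T : Finset (Fin n),
      T ⊆ (Finset.univ.filter fun i => κ i = j) → T.card = d + 1 → ∀ u v : Perm (Fin n),
      ∑ τ ∈ PT T, ML Λ (fun i => pxK (e1 (κ i) (x (u i)).1) (e2 (κ i) (x ((v * τ) i)).2)) = 0 := by
    intro d hd T hTA hT u v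
    have h3 := rel_rightK hd T hT (fun i => (x (v i)).2)
      (fun i => e1 (κ i) (x (u i)).1) (fun i => e2 (κ i) (x (v i)).2) Λ hl
    rw [← h3]
    refine Finset.sum_congr rfl fun τ hτ => ?_
    rw [mem_PT] at hτ
    refine congrArg (ML Λ) (funext fun i => ?_)
    by_cases hi : i ∈ T
    · rw [if_pos hi]
      have h4 : κ i = j := (Finset.mem_filter.1 (hTA hi)).2
      rw [h4]
      rfl
    · rw [if_neg hi, Perm.mul_apply, hτ i hi]
  have hone : ∀ T : Finset (Fin n), T.card = 0 + 1 → ∀ F : Perm (Fin n) → k,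
      ∑ τ ∈ PT T, F τ = F 1 := by
    intro T hT F
    obtain ⟨i, rfl⟩ := Finset.card_eq_one.1 hT
    have h5 : PT ({i} : Finset (Fin n)) = {1} := by
      ext τ
      rw [mem_PT, Finset.mem_singleton]
      constructor
      · intro h
        ext a
        by_cases ha : a = i
        · subst ha
          by_contra hne
          have h6 : τ (τ a) = τ a := h (τ a) (by
            rw [Finset.mem_singleton]
            intro h7
            exact hne (by rw [h7]; rfl))
          exact hne (by rw [τ.injective h6]; rfl)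
        · rw [h a (by rw [Finset.mem_singleton]; exact ha)]; rfl
      · rintro rfl a _
        rfl
    rw [h5, Finset.sum_singleton]
  have hpos : ∃ i, κ i = j := by
    obtain ⟨i, hi⟩ := Finset.card_pos.1 ((Nat.zero_le _).trans_lt hj)
    exact ⟨i, (Finset.mem_filter.1 hi).2⟩
  obtain ⟨i, hi⟩ := hpos
  have hsub : ({i} : Finset (Fin n)) ⊆ (Finset.univ.filter fun i => κ i = j) := by
    intro a ha
    rw [Finset.mem_singleton] at ha
    rw [ha, Finset.mem_filter]
    exact ⟨Finset.mem_univ _, hi⟩
  rcases hv j with ⟨d1, d2, h1, h2, hm⟩ | h1 | h2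
  · rw [hm] at hj
    exact comb_partK (Finset.univ.filter fun i => κ i = j) hj
      (fun u v => ML Λ (fun i => pxK (e1 (κ i) (x (u i)).1) (e2 (κ i) (x (v i)).2)))
      (fun T hTA hT u v => hL d1 h1 T hTA hT u v) (fun T hTA hT u v => hR d2 h2 T hTA hT u v)
  · refine Finset.sum_eq_zero fun σ _ => ?_
    have h3 := hL 0 h1 {i} hsub (Finset.card_singleton i) σ σ
    rw [hone {i} (Finset.card_singleton i), mul_one] at h3
    rw [h3, mul_zero]
  · refine Finset.sum_eq_zero fun σ _ => ?_
    have h3 := hR 0 h2 {i} hsub (Finset.card_singleton i) σ σ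
    rw [hone {i} (Finset.card_singleton i), mul_one] at h3
    rw [h3, mul_zero]

theorem pair_vanishK' {J : Type} (e1 : J → Place k K1 → (Place k K1 →₀ k))
    (e2 : J → Place k K2 → (Place k K2 →₀ k)) (m : J → ℕ)
    (hv : ∀ j, VanPairK k (e1 j) (e2 j) (m j)) [Fintype J]
    (hn : ∑ j, m j < n) (Λ : (Fin n → Place k K1 × Place k K2) → k)
    (hl : Kill (((curve k K1).prod (curve k K2)).pow (Fin n)) Λ) (κ : Fin n → J)
    (b : Fin n → (Place k K1 × Place k K2) →₀ ℤ) :
    ∑ σ : Perm (Fin n), ((Perm.sign σ : ℤ) : k) *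
      ML Λ (fun i => Finsupp.linearCombination k
        (fun x : Place k K1 × Place k K2 => pxK (e1 (κ i) x.1) (e2 (κ i) x.2))
          (toK (b (σ i)))) = 0 := by
  classical
  let Φ : (Fin n → Place k K1 × Place k K2) → k := fun x =>
    ML Λ fun i => pxK (e1 (κ i) (x i).1) (e2 (κ i) (x i).2)
  have h3 : ∑ σ : Perm (Fin n), ((Perm.sign σ : ℤ) : k) *
      ML Λ (fun i => Finsupp.linearCombination k
        (fun x : Place k K1 × Place k K2 => pxK (e1 (κ i) x.1) (e2 (κ i) x.2))
          (toK (b (σ i)))) = ev Φ (ALT (ext b)) := by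
    rw [← altSum_eq]
    unfold altSum
    rw [map_sum]
    refine Finset.sum_congr rfl fun σ _ => ?_
    rw [map_zsmul, zsmul_eq_mul, ev_ext, ML_comp]
  rw [h3]
  generalize ext b = z
  induction z using Finsupp.induction_linear with
  | zero => rw [map_zero, map_zero]
  | add u v hu hv => rw [map_add, map_add, hu, hv, add_zero]
  | single x c =>
    have h4 : Finsupp.single x c = c • Finsupp.single x (1 : ℤ) := by
      rw [Finsupp.smul_single, smul_eq_mul, mul_one]
    rw [h4, map_zsmul, map_zsmul, ALT_single, map_sum]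
    have h5 : ∑ σ : Perm (Fin n), ev Φ
        ((Perm.sign σ : ℤ) • Finsupp.single (fun i => x (σ i)) 1) =
        ∑ σ : Perm (Fin n), ((Perm.sign σ : ℤ) : k) *
          ML Λ (fun i => pxK (e1 (κ i) (x (σ i)).1) (e2 (κ i) (x (σ i)).2)) := by
      refine Finset.sum_congr rfl fun σ _ => ?_
      rw [map_zsmul, zsmul_eq_mul, ev_single, Int.cast_one, one_mul]
    rw [h5, pair_vanishK e1 e2 m hv hn Λ hl κ x, smul_zero]

end rel

end Pool.Agent.J4.H18.CV
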