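import Pool.Agent.J4.H18.CV.F

/-!
# Isotypic parts of zero-cycles on a curve with a finite group
-/

set_option autoImplicit false

open FF IntermediateField Equiv Pool.Agent.W603.LV Pool.Agent.W603.PV Pool.Agent.W619.PQ
  Pool.Agent.J4.H17.ZC Pool.Agent.N162.CV Pool.Agent.N75.CV Pool.Agent.J4.H82.PV

namespace Pool.Agent.J4.H18.CV

section exu

variable {k : Type} [Field k] {K : Type} [Field K] [Algebra k K] {H : Type} [Group H] [Fintype H]
  (β : H →* (K ≃ₐ[k] K)) (u : H →* kˣ)

/-- the part of the zero-cycle given by a point on which the group acts by the character -/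
noncomputable def exu (P : Place k K) : Place k K →₀ k :=
  ∑ h : H, (((u h)⁻¹ : kˣ) : k) • Finsupp.single (act (β h) P) 1

theorem exu_act (h : H) (P : Place k K) : exu β u (act (β h) P) = ((u h : kˣ) : k) • exu β u P := by
  unfold exu
  rw [Finset.smul_sum]
  refine Fintype.sum_equiv (Equiv.mulRight h) _ _ fun x => ?_
  change _ = ((u h : kˣ) : k) • (((u (x * h))⁻¹ : kˣ) : k) • Finsupp.single (act (β (x * h)) P) 1
  rw [map_mul β, act_mul, smul_smul, map_mul u, mul_inv_rev, Units.val_mul,
    ← mul_assoc, Units.mul_inv, one_mul]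

theorem exu_zero {h : H} {P : Place k K} (hP : act (β h) P = P) (hu : u h ≠ 1) :
    exu β u P = 0 := by
  have h1 := exu_act β u h P
  rw [hP] at h1
  have h2 : ((1 : k) - ((u h : kˣ) : k)) • exu β u P = 0 := by
    rw [sub_smul, one_smul, ← h1, sub_self]
  refine (smul_eq_zero.1 h2).resolve_left fun h3 => hu ?_
  apply Units.ext
  rw [Units.val_one]
  exact (sub_eq_zero.1 h3).symm

theorem exu_regE [CharZero k] : RegE (curve k K) (curve k K) (exu β u) :=
  ⟨H, inferInstance, fun h => (((u h)⁻¹ : kˣ) : k), fun h => act (β h), fun h => act_reg (β h),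
    fun _ => rfl⟩

end exu

section stab

variable {k : Type} [Field k] [CharZero k] [IsAlgClosed k] {K : Type} [Field K] [Algebra k K]
  [IsFF k K] {H : Type} [Group H] [Fintype H] (β : H →* (K ≃ₐ[k] K)) (u : H →* kˣ)

/-- The order of `δ` below a place is divisible by `m`, if the character is trivial on the
stabilizer of the place. -/
theorem dvd_of_stab [IsFF k (fixedField β.range)] {w : K} (hw0 : w ≠ 0)
    (hw : ∀ h, β h w = algebraMap k K (u h : kˣ) * w) {m : ℕ}
    {δ : fixedField β.range} (hwm : w ^ m = algebraMap (fixedField β.range) K δ)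
    (P : Place k K) (hP : ∀ h, act (β h) P = P → u h = 1) :
    (m : ℤ) ∣ (under (fixedField β.range) P).ord δ := by
  classical
  let S : Finset (Place k K) := (Finset.univ.image fun h : H => act (β h) P).erase P
  obtain ⟨y, hy1, hy2⟩ := approx_one S P (Finset.notMem_erase _ _) (1 : K) 1
  set w' : K := ∑ h : H, algebraMap k K (((u h)⁻¹ : kˣ) : k) * β h y with hw'
  have hinv : ∀ h0, β h0 w' = algebraMap k K (u h0 : kˣ) * w' := by
    intro h0
    rw [hw', map_sum, Finset.mul_sum]
    refine Fintype.sum_equiv (Equiv.mulLeft h0) _ _ fun h => ?_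
    rw [Equiv.coe_mulLeft, map_mul, AlgEquiv.commutes, map_mul β, AlgEquiv.mul_apply, ← mul_assoc,
      ← map_mul, map_mul u, mul_inv_rev, Units.val_mul, mul_comm (((u h)⁻¹ : kˣ) : k), ← mul_assoc,
      Units.mul_inv, one_mul]
  let N : ℕ := (Finset.univ.filter fun h : H => act (β h⁻¹) P = P).card
  have hN : (N : k) ≠ 0 := by
    have h1 : 0 < N := Finset.card_pos.2 ⟨1, by
      rw [Finset.mem_filter, inv_one, map_one, act_one]
      exact ⟨Finset.mem_univ _, rfl⟩⟩
    exact_mod_cast h1.ne'
  have hNK : algebraMap k K (N : k) ≠ 0 := by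
    rw [Ne, map_eq_zero]; exact hN
  have hord : ∀ (h : H) (f : K), P.ord (β h f) = (act (β h⁻¹) P).ord f := by
    intro h f
    rw [act_ord, map_inv]
    rfl
  have hdiff : Ge P 1 (w' - algebraMap k K (N : k)) := by
    have h1 : w' - algebraMap k K (N : k) = ∑ h : H, (algebraMap k K (((u h)⁻¹ : kˣ) : k) * β h y -
        if act (β h⁻¹) P = P then 1 else 0) := by
      rw [Finset.sum_sub_distrib, ← hw', Finset.sum_ite, Finset.sum_const_zero, add_zero,
        Finset.sum_const, nsmul_eq_mul, mul_one, map_natCast]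
    rw [h1]
    refine Finset.sum_induction _ (fun y => Ge P 1 y) (fun a b ha hb => ha.add hb)
      (Or.inl rfl) fun h _ => ?_
    split_ifs with h2
    · have h3 : u h = 1 := by
        have := hP h⁻¹ h2
        rwa [map_inv, inv_eq_one] at this
      rw [h3, inv_one, Units.val_one, map_one, one_mul]
      have h4 : β h y - 1 = β h (y - 1) := by rw [map_sub, map_one]
      rw [h4]
      rcases hy1 with h5 | h5
      · exact Or.inl (by rw [h5, map_zero])
      · right
        rw [hord, h2]
        exact h5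
    · rw [sub_zero]
      have h3 : act (β h⁻¹) P ∈ S := by
        rw [Finset.mem_erase, Finset.mem_image]
        exact ⟨h2, h⁻¹, Finset.mem_univ _, rfl⟩
      have h4 : Ge P 1 (β h y) := by
        rcases hy2 _ h3 with h5 | h5
        · exact Or.inl (by rw [h5, map_zero])
        · right
          rw [hord]
          exact h5
      have h5 : Ge P (0 + 1) (algebraMap k K (((u h)⁻¹ : kˣ) : k) * β h y) :=
        Ge.mul (Ge.const _) h4
      simpa using h5
  have hw'ord : w' ≠ 0 ∧ P.ord w' = 0 := by
    rcases hdiff with h1 | h1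
    · have h2 : w' = algebraMap k K (N : k) := sub_eq_zero.1 h1
      rw [h2]
      exact ⟨hNK, P.ord_const hN⟩
    · by_cases h0 : w' - algebraMap k K (N : k) = 0
      · have h2 : w' = algebraMap k K (N : k) := sub_eq_zero.1 h0
        rw [h2]
        exact ⟨hNK, P.ord_const hN⟩
      · have h2 := P.ord_add_eq hNK h0 (by rw [P.ord_const hN]; omega)
        rw [add_sub_cancel, P.ord_const hN] at h2
        exact h2
  obtain ⟨hw'0, hw'1⟩ := hw'ord
  have hfix : w / w' ∈ fixedField β.range := by
    rw [IntermediateField.mem_fixedField_iff]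
    rintro _ ⟨h, rfl⟩
    rw [map_div₀, hw, hinv]
    have h1 : algebraMap k K (u h : kˣ) ≠ 0 := by
      rw [Ne, map_eq_zero]; exact (u h).ne_zero
    exact mul_div_mul_left _ _ h1
  let f : fixedField β.range := ⟨w / w', hfix⟩
  have hf : algebraMap (fixedField β.range) K f = w / w' := rfl
  have h1 : P.ord w = ram (fixedField β.range) P * (under (fixedField β.range) P).ord f := by
    rw [← ord_under, hf, P.ord_div hw0 hw'0, hw'1, sub_zero]
  have h2 : (m : ℤ) * P.ord w =
      ram (fixedField β.range) P * (under (fixedField β.range) P).ord δ := by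
    rw [← ord_under, ← hwm, P.ord_pow]
  have h3 : (0 : ℤ) < ram (fixedField β.range) P := by
    exact_mod_cast (ram_spec (F := fixedField β.range) P).1
  refine ⟨(under (fixedField β.range) P).ord f, ?_⟩
  rw [h1] at h2
  refine mul_left_cancel₀ h3.ne' ?_
  rw [← h2]
  ring

end stab

section van

variable {k : Type} [Field k] [CharZero k] [IsAlgClosed k] {K : Type} [Field K] [Algebra k K]
  [IsFF k K] {H : Type} [Group H] [Fintype H] (β : H →* (K ≃ₐ[k] K)) (u : H →* kˣ)

theorem exists_elt (g : K ≃ₐ[fixedField β.range] K) : ∃ h : H, ∀ x, g x = β h x := by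
  obtain ⟨s, hs⟩ := (FixedPoints.toAlgHom_bijective β.range K).2
    (g.toAlgHom : K →ₐ[fixedField β.range] K)
  obtain ⟨h, hh⟩ := s.2
  refine ⟨h, fun x => ?_⟩
  rw [hh]
  exact (DFunLike.congr_fun hs x).symm

theorem actF_eq {g : K ≃ₐ[fixedField β.range] K} {h : H} (hg : ∀ x, g x = β h x)
    (P : Place k K) : actF g P = act (β h) P := by
  ext x
  rw [actF_ord, act_ord]
  congr 1
  rw [AlgEquiv.symm_apply_eq, hg, AlgEquiv.apply_symm_apply]

/-- the symmetrization of the multilinear extension -/
noncomputable def SP {T : Type} [Fintype T] [DecidableEq T] (e : Place k K → (Place k K →₀ k))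
    (Λ : (T → Place k K) → k) (s : T → Place k K) : k :=
  ∑ σ : Perm T, ML Λ (fun i => e (s (σ i)))

omit [IsAlgClosed k] [IsFF k K] in
theorem SP_kill {T : Type} [Fintype T] [DecidableEq T] {e : Place k K → (Place k K →₀ k)}
    (he : RegE (curve k K) (curve k K) e) {Λ : (T → Place k K) → k}
    (hΛ : Kill ((curve k K).pow T) Λ) : Kill ((curve k K).pow T) (SP e Λ) := by
  have h1 : SP e Λ = fun s => ∑ σ : Perm T, 1 * ML Λ (fun i => e (s (σ i))) := by
    funext s
    unfold SP
    exact Finset.sum_congr rfl fun σ _ => (one_mul _).symm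
  rw [h1]
  refine Kill.sum _ _ _ fun σ _ => ?_
  have h2 := RegE.kill (X := curve k K) (Y := curve k K) (fun _ : T => he) hΛ
  exact Kill.comp (X := (curve k K).pow T) (Y := (curve k K).pow T) (F := fun s i => s (σ i))
    (fun L _ _ x hx i => hx (σ i)) h2

omit [CharZero k] [IsAlgClosed k] [IsFF k K] in
theorem SP_sym {T : Type} [Fintype T] [DecidableEq T] (e : Place k K → (Place k K →₀ k))
    (Λ : (T → Place k K) → k) (s : T → Place k K) (π : Perm T) :
    SP e Λ (fun i => s (π i)) = SP e Λ s := by
  unfold SP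
  exact Equiv.sum_comp (Equiv.mulLeft π) fun σ : Perm T => ML Λ (fun i => e (s (σ i)))

omit [CharZero k] [IsAlgClosed k] [IsFF k K] in
theorem SP_smul {T : Type} [Fintype T] [DecidableEq T] {e : Place k K → (Place k K →₀ k)}
    (Λ : (T → Place k K) → k) {s s' : T → Place k K} {c : T → k}
    (h : ∀ i, e (s' i) = c i • e (s i)) : SP e Λ s' = (∏ i, c i) * SP e Λ s := by
  unfold SP
  rw [Finset.mul_sum]
  refine Finset.sum_congr rfl fun σ _ => ?_
  have h1 : (fun i => e (s' (σ i))) = fun i => c (σ i) • e (s (σ i)) := funext fun i => h (σ i)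
  rw [h1, MultilinearMap.map_smul_univ, Equiv.prod_comp σ c, smul_eq_mul]

omit [CharZero k] [IsAlgClosed k] [IsFF k K] in
theorem SP_zero {T : Type} [Fintype T] [DecidableEq T] {e : Place k K → (Place k K →₀ k)}
    (Λ : (T → Place k K) → k) {s : T → Place k K} {i : T} (h : e (s i) = 0) : SP e Λ s = 0 := by
  unfold SP
  refine Finset.sum_eq_zero fun σ _ => ?_
  exact MultilinearMap.map_coord_zero _ (σ.symm i) (by rw [Equiv.apply_symm_apply, h])

/-- Vanishing of the symmetrized products of isotypic zero-cycles for cyclic covers with pairs of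
opposite branch points. -/
theorem van_pairs {g r d : ℕ} (hg : HasGenus k (fixedField β.range) g) (hr : 0 < r)
    (hd : d + 1 = g + r) {w : K} (hw0 : w ≠ 0)
    (hw : ∀ h, β h w = algebraMap k K (u h : kˣ) * w) {m : ℕ} (hm : 0 < m)
    {δ : fixedField β.range} (hwm : w ^ m = algebraMap (fixedField β.range) K δ)
    (b : Fin r × Bool → Place k (fixedField β.range)) (hb : Function.Injective b)
    (hB : ∀ v, (m : ℤ) ∣ v.ord δ ↔ ∀ j, b j ≠ v)
    (hpair : ∀ j, (m : ℤ) ∣ (b (j, false)).ord δ + (b (j, true)).ord δ) :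
    VanK k (exu β u) d := by
  classical
  intro T _ _ hT Λ hΛ s
  obtain ⟨r, rfl⟩ : ∃ r', r = r' + 1 := ⟨r - 1, by omega⟩
  have i1 : IsFF k (fixedField β.range) := isFF_fixed β.range
  choose hh hhg using exists_elt β
  refine vanish_pairs (F := fixedField β.range) (K := K) hw0 hm hwm
    (fun g => ((u (hh g) : kˣ) : k)) (fun g => by rw [hhg, hw]) hg (SP (exu β u) Λ)
    (SP_kill (exu_regE β u) hΛ) (SP_sym (exu β u) Λ) ?_ b hb (fun v hv => (hB v).2 hv)
    hpair ?_ (by omega) s
  · intro x g
    exact SP_smul Λ fun i => by rw [actF_eq β (hhg (g i)), exu_act]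
  · intro j x hx
    obtain ⟨i, hi⟩ := hx
    refine SP_zero Λ (i := i) ?_
    by_contra hne
    have h1 := dvd_of_stab β u hw0 hw hwm (x i) (fun h hP => by
      by_contra hu
      exact hne (exu_zero β u hP hu))
    rw [hi] at h1
    exact (hB _).1 h1 j rfl

/-- The theorem of Bloch for the quotient curve. -/
theorem van_trivK {g : ℕ} (hg : HasGenus k (fixedField β.range) g) (o : Place k K) :
    VanK k (fun P => exu β 1 P - exu β 1 o) g := by
  classical
  intro T _ _ hT Λ hΛ s
  have i1 : IsFF k (fixedField β.range) := isFF_fixed β.range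
  choose hh hhg using exists_elt β
  have hinv : ∀ (h : H) P, exu β (1 : H →* kˣ) (act (β h) P) = exu β 1 P := fun h P => by
    rw [exu_act, MonoidHom.one_apply, Units.val_one, one_smul]
  refine vanish_triv (F := fixedField β.range) (K := K) hg
    (SP (fun P => exu β 1 P - exu β 1 o) Λ)
    (SP_kill (RegE.sub (exu_regE β 1) (RegE.const (fun L _ _ Q => curve_const K L Q) _)) hΛ)
    (SP_sym _ Λ) ?_ (under (fixedField β.range) o) ?_ (by omega) s
  · intro x g
    have h1 := SP_smul (e := fun P => exu β (1 : H →* kˣ) P - exu β 1 o) Λ (s := x)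
      (s' := fun i => actF (g i) (x i)) (c := fun _ => 1) fun i => by
        rw [actF_eq β (hhg (g i)), hinv, one_smul]
    rwa [Finset.prod_const_one, one_mul] at h1
  · intro x hx
    obtain ⟨i, hi⟩ := hx
    refine SP_zero Λ (i := i) ?_
    obtain ⟨s, ⟨h, rfl⟩, hs⟩ := orbit β.range o (x i) hi.symm
    rw [hs, hinv, sub_self]

end van

end Pool.Agent.J4.H18.CV
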