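import Pool.Agent.J4.H18.CV.G
import Pool.Agent.J4.H17.ZC.G9

/-!
# Zero-cycles on a quotient of a product of two curves and isotypic parts
-/

set_option autoImplicit false

open FF IntermediateField Equiv Pool.Agent.W603.LV Pool.Agent.W603.PV Pool.Agent.W619.PQ
  Pool.Agent.J4.H17.ZC Pool.Agent.N162.CV Pool.Agent.N75.CV Pool.Agent.J4.H82.PV

namespace Pool.Agent.J4.H18.CV

section null

variable {k : Type} [Field k] {A B : Type} {n : ℕ}

/-- the zero-cycles whose exterior products are killed -/
noncomputable def NullK (Λ : (Fin n → A) → k) : Submodule k (A →₀ k) where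
  carrier := {z | ∀ (i : Fin n) (w : Fin n → A →₀ k), ML Λ (Function.update w i z) = 0}
  zero_mem' := fun i w => by rw [MultilinearMap.map_update_zero]
  add_mem' := fun {a b} ha hb i w => by
    rw [MultilinearMap.map_update_add, ha i w, hb i w, add_zero]
  smul_mem' := fun c a ha i w => by
    rw [MultilinearMap.map_update_smul, ha i w, smul_zero]

theorem teleK (Λ : (Fin n → A) → k) (u v : Fin n → A →₀ k)
    (h : ∀ i, u i - v i ∈ NullK Λ) : ML Λ u = ML Λ v := by
  classical
  have key : ∀ s : Finset (Fin n), ML Λ (s.piecewise u v) = ML Λ v := by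
    intro s
    induction s using Finset.induction_on with
    | empty => rw [Finset.piecewise_empty]
    | insert i s hi ih =>
      have h1 : (insert i s).piecewise u v = Function.update (s.piecewise u v) i (u i) :=
        Finset.piecewise_insert s u v i
      have h2 : s.piecewise u v = Function.update (s.piecewise u v) i (v i) := by
        conv_lhs => rw [← Function.update_eq_self i (s.piecewise u v)]
        rw [Finset.piecewise_eq_of_notMem s u v hi]
      have h3 := h i i (s.piecewise u v)
      rw [MultilinearMap.map_update_sub, sub_eq_zero] at h3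
      rw [h1, h3, ← h2, ih]
  have := key Finset.univ
  rwa [Finset.piecewise_univ] at this

theorem ML_map (q : A → B) (Λ : (Fin n → B) → k) (w : Fin n → A →₀ k) :
    ML (fun x : Fin n → A => Λ fun i => q (x i)) w = ML Λ fun i => Finsupp.mapDomain q (w i) := by
  have h1 : ∀ z : A →₀ k, Finsupp.mapDomain q z =
      Finsupp.linearCombination k (fun a => Finsupp.single (q a) (1 : k)) z := by
    intro z
    rw [Finsupp.linearCombination_apply]
    unfold Finsupp.mapDomain
    exact Finsupp.sum_congr fun a _ => by rw [Finsupp.smul_single, smul_eq_mul, mul_one]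
  have h2 := ML_comp Λ (fun (_ : Fin n) (a : A) => Finsupp.single (q a) (1 : k)) w
  rw [show (fun i => Finsupp.mapDomain q (w i)) = fun i =>
    Finsupp.linearCombination k (fun a => Finsupp.single (q a) (1 : k)) (w i) from
    funext fun i => h1 (w i), h2]
  congr 2
  funext x
  exact (ML_single Λ _).symm

theorem null_map (q : A → B) (Λ : (Fin n → B) → k) {z : A →₀ k} (hz : Finsupp.mapDomain q z = 0) :
    z ∈ NullK (fun x : Fin n → A => Λ fun i => q (x i)) := by
  intro i w
  rw [ML_map]
  exact MultilinearMap.map_coord_zero _ i (by rw [Function.update_self, hz])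

theorem null_rat [CharZero k] {X : Var k} (hX : X.Const) {Λ : (Fin n → X.Pt) → k}
    (hΛ : Kill (X.pow (Fin n)) Λ) {r : X.Pt →₀ ℤ} (hr : r ∈ RatEq X) :
    (toK r : X.Pt →₀ k) ∈ NullK Λ := by
  classical
  intro i w
  let e' : Fin n → X.Pt → (X.Pt →₀ k) := fun j x => if j = i then Finsupp.single x 1 else w j
  have he' : ∀ j, RegE X X (e' j) := by
    intro j
    by_cases h : j = i
    · have h1 : e' j = fun x => Finsupp.single x 1 := by
        funext x
        simp only [e', h, if_true]
      rw [h1]
      exact RegE.single
    · have h1 : e' j = fun _ => w j := by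
        funext x
        simp only [e', h, if_false]
      rw [h1]
      exact RegE.const hX (w j)
  have h1 := RegE.kill he' hΛ
  have h2 : Kill X (fun y => ML Λ fun j => e' j y) :=
    Kill.comp (X := X) (Y := X.pow (Fin n)) (F := fun y _ => y) (fun L _ _ x hx _ => hx) h1
  have h3 : ∀ z : X.Pt →₀ k, ML Λ (Function.update w i z) =
      Finsupp.linearCombination k (fun y => ML Λ fun j => e' j y) z := by
    intro z
    induction z using Finsupp.induction_linear with
    | zero => rw [MultilinearMap.map_update_zero, map_zero]
    | add u v hu hv => rw [MultilinearMap.map_update_add, map_add, hu, hv]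
    | single y c =>
      rw [Finsupp.linearCombination_single]
      have h4 : Finsupp.single y c = c • Finsupp.single y (1 : k) := by
        rw [Finsupp.smul_single, smul_eq_mul, mul_one]
      rw [h4, MultilinearMap.map_update_smul]
      congr 2
      funext j
      by_cases h : j = i
      · subst h
        simp only [e', Function.update_self, if_true]
      · simp only [e', h, if_false, Function.update_of_ne h]
  rw [h3, lin_toK]
  exact h2 r hr

end null

section px

variable {k : Type} [Field k] [CharZero k] {K1 K2 : Type} [Field K1] [Algebra k K1]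
  [Field K2] [Algebra k K2] {n : ℕ}

theorem toK_map {A B : Type} (q : A → B) (z : A →₀ ℤ) :
    (toK (Finsupp.mapDomain q z) : B →₀ k) = Finsupp.mapDomain q (toK z) := by
  induction z using Finsupp.induction_linear with
  | zero => rw [Finsupp.mapDomain_zero, toK_zero, toK_zero, Finsupp.mapDomain_zero]
  | add u v hu hv => rw [Finsupp.mapDomain_add, toK_add, toK_add, Finsupp.mapDomain_add, hu, hv]
  | single a c => rw [Finsupp.mapDomain_single, toK_single, toK_single, Finsupp.mapDomain_single]

theorem null_left {Λ : (Fin n → Place k K1 × Place k K2) → k}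
    (hΛ : Kill (((curve k K1).prod (curve k K2)).pow (Fin n)) Λ) {r : Place k K1 →₀ ℤ}
    (hr : r ∈ RatEq (curve k K1)) (W : Place k K2 →₀ k) : pxK (toK r) W ∈ NullK Λ := by
  induction W using Finsupp.induction_linear with
  | zero => rw [map_zero]; exact Submodule.zero_mem _
  | add u v hu hv => rw [map_add]; exact Submodule.add_mem _ hu hv
  | single t c =>
    have h1 : (pxK (toK r) (Finsupp.single t c) : Place k K1 × Place k K2 →₀ k) =
        c • toK (Finsupp.mapDomain (fun s => (s, t)) r) := by
      have h2 : Finsupp.single t c = c • Finsupp.single t (1 : k) := by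
        rw [Finsupp.smul_single, smul_eq_mul, mul_one]
      rw [h2, map_smul, toK_map]
      congr 1
      generalize (toK r : Place k K1 →₀ k) = z
      induction z using Finsupp.induction_linear with
      | zero => rw [map_zero, LinearMap.zero_apply, Finsupp.mapDomain_zero]
      | add u v hu hv => rw [map_add, LinearMap.add_apply, Finsupp.mapDomain_add, hu, hv]
      | single s d =>
        have h3 : Finsupp.single s d = d • Finsupp.single s (1 : k) := by
          rw [Finsupp.smul_single, smul_eq_mul, mul_one]
        rw [h3, map_smul, LinearMap.smul_apply, pxK_single, Finsupp.mapDomain_smul,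
          Finsupp.mapDomain_single]
    rw [h1]
    refine Submodule.smul_mem _ _ (null_rat (X := (curve k K1).prod (curve k K2))
      (prod_const k K1 K2) hΛ ?_)
    refine Reg.push (X := curve k K1) (Y := (curve k K1).prod (curve k K2)) (F := fun s => (s, t))
      ?_ hr
    intro L _ _ x hx
    exact ⟨hx, curve_const K2 L _⟩

theorem null_right {Λ : (Fin n → Place k K1 × Place k K2) → k}
    (hΛ : Kill (((curve k K1).prod (curve k K2)).pow (Fin n)) Λ) {r : Place k K2 →₀ ℤ}
    (hr : r ∈ RatEq (curve k K2)) (Z : Place k K1 →₀ k) : pxK Z (toK r) ∈ NullK Λ := by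
  induction Z using Finsupp.induction_linear with
  | zero => rw [map_zero]; exact Submodule.zero_mem _
  | add u v hu hv => rw [map_add, LinearMap.add_apply]; exact Submodule.add_mem _ hu hv
  | single s c =>
    have h1 : (pxK (Finsupp.single s c) (toK r) : Place k K1 × Place k K2 →₀ k) =
        c • toK (Finsupp.mapDomain (fun t => (s, t)) r) := by
      have h2 : Finsupp.single s c = c • Finsupp.single s (1 : k) := by
        rw [Finsupp.smul_single, smul_eq_mul, mul_one]
      rw [h2, map_smul, LinearMap.smul_apply, toK_map, pxK_single_left]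
    rw [h1]
    refine Submodule.smul_mem _ _ (null_rat (X := (curve k K1).prod (curve k K2))
      (prod_const k K1 K2) hΛ ?_)
    refine Reg.push (X := curve k K2) (Y := (curve k K1).prod (curve k K2)) (F := fun t => (s, t))
      ?_ hr
    intro L _ _ x hx
    exact ⟨curve_const K1 L _, hx⟩

end px

section group

variable {k : Type} [Field k] {G : Type} [Group G] [Fintype G]

open Classical in
/-- the extension of a character of a subgroup by zero -/
noncomputable def cfK {H : Subgroup G} (u : H →* kˣ) (x : G) : k :=
  if h : x ∈ H then ((u ⟨x, h⟩ : kˣ) : k) else 0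

theorem sum_conj_subK {M : Type} [AddCommGroup M] [Module k M] {H : Subgroup G} [Fintype H]
    (u : H →* kˣ) (F : G → M) :
    ∑ g : G, ∑ h : H, ∑ h' : H, ((((u h)⁻¹ : kˣ) : k) * ((u h' : kˣ) : k)) •
      F (g⁻¹ * (h : G)⁻¹ * h' * g) =
      (Fintype.card H : k) • ∑ x : G, (∑ g : G, cfK u (g * x * g⁻¹)) • F x := by
  classical
  have h1 : ∀ (g : G) (h : H), ∑ h' : H, ((((u h)⁻¹ : kˣ) : k) * ((u h' : kˣ) : k)) •
      F (g⁻¹ * (h : G)⁻¹ * h' * g) = ∑ h' : H, ((u h' : kˣ) : k) • F (g⁻¹ * h' * g) := by
    intro g h
    refine Fintype.sum_equiv (Equiv.mulLeft h⁻¹) _ _ fun h' => ?_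
    rw [Equiv.coe_mulLeft, map_mul u, map_inv u, Units.val_mul]
    push_cast
    simp only [mul_assoc]
  have h2 : ∀ g : G, ∑ h : H, ((u h : kˣ) : k) • F (g⁻¹ * h * g) =
      ∑ x : G, cfK u (g * x * g⁻¹) • F x := by
    intro g
    have h3 : ∑ x : G, cfK u (g * x * g⁻¹) • F x =
        ∑ x ∈ Finset.univ.filter (fun x : G => g * x * g⁻¹ ∈ H), cfK u (g * x * g⁻¹) • F x := by
      rw [Finset.sum_filter]
      refine Finset.sum_congr rfl fun x _ => ?_
      split_ifs with h
      · rfl
      · unfold cfK
        rw [dif_neg h, zero_smul]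
    rw [h3]
    refine Finset.sum_bij (fun h _ => g⁻¹ * (h : G) * g) ?_ ?_ ?_ ?_
    · intro h _
      rw [Finset.mem_filter]
      refine ⟨Finset.mem_univ _, ?_⟩
      have : g * (g⁻¹ * (h : G) * g) * g⁻¹ = h := by group
      rw [this]
      exact h.2
    · intro h _ h' _ he
      apply Subtype.ext
      simpa using he
    · intro x hx
      rw [Finset.mem_filter] at hx
      exact ⟨⟨g * x * g⁻¹, hx.2⟩, Finset.mem_univ _, by group⟩
    · intro h _
      have h4 : g * (g⁻¹ * (h : G) * g) * g⁻¹ = h := by group
      unfold cfK
      rw [dif_pos (by rw [h4]; exact h.2)]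
      congr 3
      congr 1
      exact Subtype.ext h4.symm
  rw [Finset.smul_sum]
  calc ∑ g : G, ∑ h : H, ∑ h' : H, ((((u h)⁻¹ : kˣ) : k) * ((u h' : kˣ) : k)) •
        F (g⁻¹ * (h : G)⁻¹ * h' * g)
      = ∑ g : G, (Fintype.card H : k) • ∑ x : G, cfK u (g * x * g⁻¹) • F x := by
        refine Finset.sum_congr rfl fun g _ => ?_
        rw [Finset.sum_congr rfl fun h _ => h1 g h, Finset.sum_const, Finset.card_univ, h2,
          ← Nat.cast_smul_eq_nsmul k]
    _ = _ := by
        rw [← Finset.smul_sum, Finset.sum_comm, Finset.smul_sum]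
        refine Finset.sum_congr rfl fun x _ => ?_
        rw [Finset.sum_smul]

end group

end Pool.Agent.J4.H18.CV
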