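import Pool.Agent.J4.H18.CV.H

/-!
# Zero-cycles on a quotient of a product of two curves: the reduction to isotypic parts
-/

set_option autoImplicit false

open FF IntermediateField Equiv Pool.Agent.W603.LV Pool.Agent.W603.PV Pool.Agent.W619.PQ
  Pool.Agent.J4.H17.ZC Pool.Agent.N162.CV Pool.Agent.N75.CV Pool.Agent.J4.H82.PV

namespace Pool.Agent.J4.H18.CV

section

variable {k : Type} [Field k] {K1 K2 : Type} [Field K1] [Algebra k K1] [Field K2]
  [Algebra k K2] {G : Type} [Group G] [Fintype G] (α1 : G →* (K1 ≃ₐ[k] K1))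
  (α2 : G →* (K2 ≃ₐ[k] K2))

/-- the cycle `∑ g, N (g s) × N (g t)` -/
noncomputable def EJK {H : Subgroup G} [Fintype H] (u : H →* kˣ) (x : Place k K1 × Place k K2) :
    (Place k K1 × Place k K2) →₀ k :=
  ∑ g : G, pxK (exu (α1.comp H.subtype) u (act (α1 g) x.1))
    (exu (α2.comp H.subtype) u⁻¹ (act (α2 g) x.2))

theorem EJK_map {H : Subgroup G} [Fintype H] (u : H →* kˣ) {Y : Type}
    (q : Place k K1 × Place k K2 → Y)
    (hq : ∀ (g : G) (s : Place k K1) (t : Place k K2),
      q (act (α1 g) s, act (α2 g) t) = q (s, t)) (s : Place k K1) (t : Place k K2) :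
    Finsupp.mapDomain q (EJK α1 α2 u (s, t)) = (Fintype.card H : k) • ∑ x : G,
      (∑ g : G, cfK u (g * x * g⁻¹)) • Finsupp.single (q (s, act (α2 x) t)) (1 : k) := by
  classical
  rw [← sum_conj_subK u fun x => Finsupp.single (q (s, act (α2 x) t)) (1 : k)]
  unfold EJK
  rw [Finsupp.mapDomain_finsetSum]
  refine Finset.sum_congr rfl fun g _ => ?_
  unfold exu
  rw [LinearMap.map_sum₂, Finsupp.mapDomain_finsetSum]
  refine Finset.sum_congr rfl fun h _ => ?_
  rw [map_sum, Finsupp.mapDomain_finsetSum]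
  refine Finset.sum_congr rfl fun h' _ => ?_
  rw [map_smul, map_smul, LinearMap.smul_apply, smul_smul, pxK_single, Finsupp.mapDomain_smul,
    Finsupp.mapDomain_single, MonoidHom.inv_apply, inv_inv, mul_comm]
  congr 2
  have h1 : act ((α1.comp H.subtype) h) (act (α1 g) s) = act (α1 (h * g)) s := by
    rw [map_mul, act_mul]; rfl
  have h2 : act ((α2.comp H.subtype) h') (act (α2 g) t) =
      act (α2 (h * g)) (act (α2 (g⁻¹ * (h : G)⁻¹ * h' * g)) t) := by
    have h3 : (h : G) * g * (g⁻¹ * (h : G)⁻¹ * h' * g) = h' * g := by group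
    rw [← act_mul (α2 (h * g)), ← map_mul, h3, map_mul, act_mul]
    rfl
  change q (act ((α1.comp H.subtype) h) (act (α1 g) s), act ((α2.comp H.subtype) h') (act (α2 g) t)) = _
  rw [h1, h2, hq]

end

section red

variable {k : Type} [Field k] [CharZero k] {K1 K2 : Type} [Field K1] [Algebra k K1] [Field K2]
  [Algebra k K2] {G : Type} [Group G] [Fintype G] (α1 : G →* (K1 ≃ₐ[k] K1))
  (α2 : G →* (K2 ≃ₐ[k] K2))

omit [CharZero k] [Fintype G] in
theorem cfK_one {H : Subgroup G} (u : H →* kˣ) : cfK u 1 = (1 : k) := by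
  unfold cfK
  rw [dif_pos H.one_mem]
  have : (⟨1, H.one_mem⟩ : H) = 1 := rfl
  rw [this, map_one, Units.val_one]

variable {J : Type} [Fintype J] (H : J → Subgroup G) [∀ j, Fintype (H j)]
  (u : ∀ j, H j →* kˣ) (c : J → k)

theorem EJK_sum (hc : ∀ x : G, x ≠ 1 → ∑ j, c j * ∑ g : G, cfK (u j) (g * x * g⁻¹) = 0)
    {Y : Type} (q : Place k K1 × Place k K2 → Y)
    (hq : ∀ (g : G) (s : Place k K1) (t : Place k K2),
      q (act (α1 g) s, act (α2 g) t) = q (s, t)) (x : Place k K1 × Place k K2) :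
    Finsupp.mapDomain q (∑ j, (c j / (Fintype.card (H j) : k)) • EJK α1 α2 (u j) x) =
      ((Fintype.card G : k) * ∑ j, c j) • Finsupp.single (q x) (1 : k) := by
  classical
  obtain ⟨s, t⟩ := x
  rw [Finsupp.mapDomain_finsetSum]
  have h1 : ∀ j, Finsupp.mapDomain q ((c j / (Fintype.card (H j) : k)) • EJK α1 α2 (u j) (s, t)) =
      ∑ x : G, (c j * ∑ g : G, cfK (u j) (g * x * g⁻¹)) •
        Finsupp.single (q (s, act (α2 x) t)) (1 : k) := by
    intro j
    have h0 : (Fintype.card (H j) : k) ≠ 0 := by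
      have : 0 < Fintype.card (H j) := Fintype.card_pos
      exact_mod_cast this.ne'
    rw [Finsupp.mapDomain_smul, EJK_map α1 α2 (u j) q hq, smul_smul, div_mul_cancel₀ _ h0,
      Finset.smul_sum]
    refine Finset.sum_congr rfl fun x _ => ?_
    rw [smul_smul]
  rw [Finset.sum_congr rfl fun j _ => h1 j, Finset.sum_comm]
  have h2 : ∀ x : G, ∑ j, (c j * ∑ g : G, cfK (u j) (g * x * g⁻¹)) •
        Finsupp.single (q (s, act (α2 x) t)) (1 : k) =
      (∑ j, c j * ∑ g : G, cfK (u j) (g * x * g⁻¹)) •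
        Finsupp.single (q (s, act (α2 x) t)) (1 : k) := by
    intro x
    rw [← Finset.sum_smul]
  rw [Finset.sum_congr rfl fun x _ => h2 x, Finset.sum_eq_single (1 : G)]
  · have h4 : act (α2 1) t = t := by rw [map_one, act_one]
    rw [h4]
    congr 1
    rw [Finset.mul_sum]
    refine Finset.sum_congr rfl fun j _ => ?_
    have h5 : ∀ g : G, cfK (u j) (g * 1 * g⁻¹) = 1 := by
      intro g
      rw [mul_one, mul_inv_cancel, cfK_one]
    rw [Finset.sum_congr rfl fun g _ => h5 g, Finset.sum_const, Finset.card_univ, nsmul_eq_mul,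
      mul_one, mul_comm]
  · intro x _ hx
    rw [hc x hx, zero_smul]
  · intro h
    exact absurd (Finset.mem_univ _) h

end red

end Pool.Agent.J4.H18.CV
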