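import Pool.Agent.J4.H18.CV.I

/-!
# Alternating sums of exterior products on quotients of products of two curves
-/

set_option autoImplicit false

open FF IntermediateField Equiv Pool.Agent.W603.LV Pool.Agent.W603.PV Pool.Agent.W619.PQ
  Pool.Agent.J4.H17.ZC Pool.Agent.N162.CV Pool.Agent.N75.CV Pool.Agent.J4.H82.PV

namespace Pool.Agent.J4.H18.CV

section misc

variable {k : Type} [Field k] {A B : Type}

theorem toK_sum {ι : Type} (s : Finset ι) (z : ι → A →₀ ℤ) :
    (toK (∑ i ∈ s, z i) : A →₀ k) = ∑ i ∈ s, toK (z i) := by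
  classical
  induction s using Finset.induction_on with
  | empty => rw [Finset.sum_empty, Finset.sum_empty, toK_zero]
  | insert i s hi ih => rw [Finset.sum_insert hi, Finset.sum_insert hi, toK_add, ih]

theorem toK_lin (f : A → (B →₀ ℤ)) (z : A →₀ ℤ) :
    (toK (Finsupp.linearCombination ℤ f z) : B →₀ k) =
      Finsupp.linearCombination k (fun x => toK (f x)) (toK z) := by
  induction z using Finsupp.induction_linear with
  | zero => rw [map_zero, toK_zero, toK_zero, map_zero]
  | add u v hu hv => rw [map_add, toK_add, toK_add, map_add, hu, hv]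
  | single a c =>
    rw [Finsupp.linearCombination_single, toK_smul, toK_single, Finsupp.linearCombination_single]

theorem lin_const (w : B →₀ k) (z : A →₀ ℤ) :
    Finsupp.linearCombination k (fun _ : A => w) (toK z) = ((dg z : ℤ) : k) • w := by
  induction z using Finsupp.induction_linear with
  | zero => rw [toK_zero, map_zero, map_zero, Int.cast_zero, zero_smul]
  | add u v hu hv => rw [toK_add, map_add, map_add, Int.cast_add, add_smul, hu, hv]
  | single a c => rw [toK_single, Finsupp.linearCombination_single, dg_single]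

theorem sum_exu_one [CharZero k] {K : Type} [Field K] [Algebra k K] {G : Type} [Group G]
    [Fintype G] (α : G →* (K ≃ₐ[k] K)) {H : Subgroup G} [Fintype H] {u : H →* kˣ} (hu : u = 1)
    (s : Place k K) :
    ∑ g : G, exu (α.comp H.subtype) u (act (α g) s) = (Fintype.card H : k) • toK (NN α s) := by
  subst hu
  unfold exu NN
  rw [Finset.sum_comm, toK_sum]
  have h1 : ∀ h : H, ∑ g : G, ((((1 : H →* kˣ) h)⁻¹ : kˣ) : k) •
      Finsupp.single (act ((α.comp H.subtype) h) (act (α g) s)) (1 : k) =
      ∑ g : G, toK (Finsupp.single (act (α g) s) (1 : ℤ)) := by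
    intro h
    refine Fintype.sum_equiv (Equiv.mulLeft (h : G)) _ _ fun g => ?_
    rw [Equiv.coe_mulLeft, map_mul, act_mul, toK_single, Int.cast_one, MonoidHom.one_apply,
      inv_one, Units.val_one, one_smul]
    rfl
  rw [Finset.sum_congr rfl fun h _ => h1 h, Finset.sum_const, Finset.card_univ,
    ← Nat.cast_smul_eq_nsmul k]

end misc

section red

variable {k : Type} [Field k] [CharZero k] {K1 K2 : Type} [Field K1] [Algebra k K1] [Field K2]
  [Algebra k K2] {G : Type} [Group G] [Fintype G] (α1 : G →* (K1 ≃ₐ[k] K1))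
  (α2 : G →* (K2 ≃ₐ[k] K2))

/-- the operator `x ↦ (N x₁ - ω₁) × (N x₂ - ω₂)` -/
noncomputable def opK {H : Subgroup G} [Fintype H] (u : H →* kˣ) (om1 : Place k K1 →₀ k)
    (om2 : Place k K2 →₀ k) (x : Place k K1 × Place k K2) : (Place k K1 × Place k K2) →₀ k :=
  pxK (exu (α1.comp H.subtype) u x.1 - om1) (exu (α2.comp H.subtype) u⁻¹ x.2 - om2)

omit [CharZero k] [Fintype G] in
theorem inv_eq_one_hom {H : Subgroup G} {u : H →* kˣ} (h : u = 1) : u⁻¹ = 1 := by
  subst h
  ext x
  simp

theorem opK_sum {H : Subgroup G} [Fintype H] (u : H →* kˣ) {om1 : Place k K1 →₀ k}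
    {om2 : Place k K2 →₀ k} (hom : u = 1 ∨ (om1 = 0 ∧ om2 = 0)) (x : Place k K1 × Place k K2) :
    ∑ g : G, opK α1 α2 u om1 om2 (act (α1 g) x.1, act (α2 g) x.2) =
      EJK α1 α2 u x - (Fintype.card H : k) • pxK (toK (NN α1 x.1)) om2 -
        (Fintype.card H : k) • pxK om1 (toK (NN α2 x.2)) +
        (Fintype.card G : k) • pxK om1 om2 := by
  unfold opK EJK
  simp only [map_sub, LinearMap.sub_apply, Finset.sum_sub_distrib]
  rcases hom with h | ⟨h1, h2⟩
  · have h3 : ∑ g : G, pxK (exu (α1.comp H.subtype) u (act (α1 g) x.1)) om2 =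
        (Fintype.card H : k) • pxK (toK (NN α1 x.1)) om2 := by
      rw [← LinearMap.map_sum₂, sum_exu_one α1 h, map_smul, LinearMap.smul_apply]
    have h4 : ∑ g : G, pxK om1 (exu (α2.comp H.subtype) u⁻¹ (act (α2 g) x.2)) =
        (Fintype.card H : k) • pxK om1 (toK (NN α2 x.2)) := by
      rw [← map_sum, sum_exu_one α2 (inv_eq_one_hom h), map_smul]
    rw [h3, h4, Finset.sum_const, Finset.card_univ, ← Nat.cast_smul_eq_nsmul k]
    abel
  · rw [h1, h2]
    simp only [map_zero, LinearMap.zero_apply, Finset.sum_const_zero, smul_zero, sub_zero,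
      add_zero]

omit [CharZero k] in
theorem trG_single (x : Place k K1 × Place k K2) (m : ℤ) :
    trG α1 α2 (Finsupp.single x m) =
      ∑ g : G, Finsupp.single (act (α1 g) x.1, act (α2 g) x.2) m := by
  unfold trG
  rw [AddMonoidHom.finsetSum_apply]
  refine Finset.sum_congr rfl fun g _ => ?_
  change Finsupp.mapDomain _ _ = _
  rw [Finsupp.mapDomain_single]

theorem lin_trG (op : Place k K1 × Place k K2 → ((Place k K1 × Place k K2) →₀ k))
    (b : (Place k K1 × Place k K2) →₀ ℤ) :
    Finsupp.linearCombination k op (toK (trG α1 α2 b)) = Finsupp.linearCombination k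
      (fun x => ∑ g : G, op (act (α1 g) x.1, act (α2 g) x.2)) (toK b) := by
  induction b using Finsupp.induction_linear with
  | zero => rw [map_zero, toK_zero, map_zero, map_zero]
  | add u v hu hv => rw [map_add, toK_add, map_add, toK_add, map_add, hu, hv]
  | single x m =>
    rw [trG_single, toK_sum, map_sum, toK_single, Finsupp.linearCombination_single,
      Finset.smul_sum]
    refine Finset.sum_congr rfl fun g _ => ?_
    rw [toK_single, Finsupp.linearCombination_single]

/-- the image of a cycle on the product in the first curve, summed over the group -/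
noncomputable def ppa (b : (Place k K1 × Place k K2) →₀ ℤ) : Place k K1 →₀ ℤ :=
  Finsupp.linearCombination ℤ (fun x : Place k K1 × Place k K2 => NN α1 x.1) b

/-- the image of a cycle on the product in the second curve, summed over the group -/
noncomputable def ppb (b : (Place k K1 × Place k K2) →₀ ℤ) : Place k K2 →₀ ℤ :=
  Finsupp.linearCombination ℤ (fun x : Place k K1 × Place k K2 => NN α2 x.2) b

theorem op_trG {H : Subgroup G} [Fintype H] (u : H →* kˣ) {om1 : Place k K1 →₀ k}
    {om2 : Place k K2 →₀ k} (hom : u = 1 ∨ (om1 = 0 ∧ om2 = 0))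
    (b : (Place k K1 × Place k K2) →₀ ℤ) :
    Finsupp.linearCombination k (opK α1 α2 u om1 om2) (toK (trG α1 α2 b)) =
      Finsupp.linearCombination k (EJK α1 α2 u) (toK b) -
        (Fintype.card H : k) • pxK (toK (ppa α1 b)) om2 -
        (Fintype.card H : k) • pxK om1 (toK (ppb α2 b)) +
        ((dg b : ℤ) : k) • (Fintype.card G : k) • pxK om1 om2 := by
  rw [lin_trG]
  unfold ppa ppb
  induction b using Finsupp.induction_linear with
  | zero => simp only [toK_zero, map_zero, LinearMap.zero_apply, smul_zero, Int.cast_zero,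
      zero_smul, sub_zero, add_zero]
  | add u v hu hv =>
    simp only [toK_add, map_add, LinearMap.add_apply, smul_add, Int.cast_add, add_smul, hu, hv]
    abel
  | single x m =>
    rw [toK_single, Finsupp.linearCombination_single, opK_sum α1 α2 _ hom,
      Finsupp.linearCombination_single, Finsupp.linearCombination_single,
      Finsupp.linearCombination_single, toK_smul, toK_smul, dg_single, map_smul, map_smul,
      LinearMap.smul_apply, smul_add, smul_sub, smul_sub,
      smul_comm (m : k) (Fintype.card H : k), smul_comm (m : k) (Fintype.card H : k)]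

variable {J : Type} [Fintype J] (H : J → Subgroup G) [∀ j, Fintype (H j)]
  (u : ∀ j, H j →* kˣ) (c : J → k)

/-- The reduction: a multiple of a zero-cycle of degree zero which is zero in the quotient curves
agrees with a combination of products, as far as the exterior products on the quotient surface are
concerned. -/
theorem redK (om1 : J → Place k K1 →₀ k) (om2 : J → Place k K2 →₀ k)
    (hom : ∀ j, u j = 1 ∨ (om1 j = 0 ∧ om2 j = 0))
    (hc : ∀ x : G, x ≠ 1 → ∑ j, c j * ∑ g : G, cfK (u j) (g * x * g⁻¹) = 0)
    {Y : Type} (q : Place k K1 × Place k K2 → Y)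
    (hq : ∀ (g : G) (s : Place k K1) (t : Place k K2),
      q (act (α1 g) s, act (α2 g) t) = q (s, t)) {n : ℕ} (Λ : (Fin n → Y) → k)
    (hΛ : Kill (((curve k K1).prod (curve k K2)).pow (Fin n)) fun x => Λ fun i => q (x i))
    (b : (Place k K1 × Place k K2) →₀ ℤ) (hb : dg b = 0)
    (hb1 : ∃ N : ℕ, 0 < N ∧ N • ppa α1 b ∈ RatEq (curve k K1))
    (hb2 : ∃ N : ℕ, 0 < N ∧ N • ppb α2 b ∈ RatEq (curve k K2)) :
    ((Fintype.card G : k) * ∑ j, c j) • toK b - ∑ j, (c j / (Fintype.card (H j) : k)) •
      Finsupp.linearCombination k (opK α1 α2 (u j) (om1 j) (om2 j)) (toK (trG α1 α2 b)) ∈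
      NullK (fun x : Fin n → Place k K1 × Place k K2 => Λ fun i => q (x i)) := by
  classical
  have h1 : ((Fintype.card G : k) * ∑ j, c j) • toK b -
      ∑ j, (c j / (Fintype.card (H j) : k)) • Finsupp.linearCombination k (EJK α1 α2 (u j))
        (toK b) ∈ NullK (fun x : Fin n → Place k K1 × Place k K2 => Λ fun i => q (x i)) := by
    refine null_map q Λ ?_
    have h2 : ∀ b : (Place k K1 × Place k K2) →₀ k, Finsupp.mapDomain q
        (∑ j, (c j / (Fintype.card (H j) : k)) • Finsupp.linearCombination k (EJK α1 α2 (u j)) b) =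
        ((Fintype.card G : k) * ∑ j, c j) • Finsupp.mapDomain q b := by
      intro b
      induction b using Finsupp.induction_linear with
      | zero => simp
      | add u v hu hv =>
        rw [Finsupp.mapDomain_add, smul_add, ← hu, ← hv, ← Finsupp.mapDomain_add,
          ← Finset.sum_add_distrib]
        congr 1
        refine Finset.sum_congr rfl fun j _ => ?_
        rw [map_add, smul_add]
      | single x m =>
        have h3 := EJK_sum α1 α2 H u c hc q hq x
        have h4 : ∑ j, (c j / (Fintype.card (H j) : k)) •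
            Finsupp.linearCombination k (EJK α1 α2 (u j)) (Finsupp.single x m) =
            m • ∑ j, (c j / (Fintype.card (H j) : k)) • EJK α1 α2 (u j) x := by
          rw [Finset.smul_sum]
          refine Finset.sum_congr rfl fun j _ => ?_
          rw [Finsupp.linearCombination_single, smul_comm]
        rw [h4, Finsupp.mapDomain_smul, h3, Finsupp.mapDomain_single, smul_comm,
          Finsupp.smul_single m, smul_eq_mul, mul_one]
    have h5 : Finsupp.mapDomain q (((Fintype.card G : k) * ∑ j, c j) • toK b -
        ∑ j, (c j / (Fintype.card (H j) : k)) • Finsupp.linearCombination k (EJK α1 α2 (u j))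
        (toK b)) = Finsupp.mapDomain q (((Fintype.card G : k) * ∑ j, c j) • toK b) -
        Finsupp.mapDomain q (∑ j, (c j / (Fintype.card (H j) : k)) •
          Finsupp.linearCombination k (EJK α1 α2 (u j)) (toK b)) :=
      map_sub (Finsupp.mapDomain.addMonoidHom (M := k) q) _ _
    rw [h5, h2, Finsupp.mapDomain_smul, sub_self]
  have h2 : ∀ j, Finsupp.linearCombination k (EJK α1 α2 (u j)) (toK b) -
      Finsupp.linearCombination k (opK α1 α2 (u j) (om1 j) (om2 j)) (toK (trG α1 α2 b)) ∈
      NullK (fun x : Fin n → Place k K1 × Place k K2 => Λ fun i => q (x i)) := by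
    intro j
    rw [op_trG α1 α2 (u j) (hom j) b, hb, Int.cast_zero, zero_smul, add_zero]
    have h3 : pxK (toK (ppa α1 b)) (om2 j) ∈
        NullK (fun x : Fin n → Place k K1 × Place k K2 => Λ fun i => q (x i)) := by
      obtain ⟨N, hN, h⟩ := hb1
      have h4 := null_left hΛ h (om2 j)
      rw [← natCast_zsmul, toK_smul, map_smul, LinearMap.smul_apply] at h4
      have h5 : ((N : ℤ) : k) ≠ 0 := by
        rw [Int.cast_natCast]
        exact_mod_cast hN.ne'
      have h6 := Submodule.smul_mem _ (((N : ℤ) : k)⁻¹) h4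
      rwa [smul_smul, inv_mul_cancel₀ h5, one_smul] at h6
    have h3' : pxK (om1 j) (toK (ppb α2 b)) ∈
        NullK (fun x : Fin n → Place k K1 × Place k K2 => Λ fun i => q (x i)) := by
      obtain ⟨N, hN, h⟩ := hb2
      have h4 := null_right hΛ h (om1 j)
      rw [← natCast_zsmul, toK_smul, map_smul] at h4
      have h5 : ((N : ℤ) : k) ≠ 0 := by
        rw [Int.cast_natCast]
        exact_mod_cast hN.ne'
      have h6 := Submodule.smul_mem _ (((N : ℤ) : k)⁻¹) h4
      rwa [smul_smul, inv_mul_cancel₀ h5, one_smul] at h6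
    have h7 := Submodule.add_mem _ (Submodule.smul_mem _ (Fintype.card (H j) : k) h3)
      (Submodule.smul_mem _ (Fintype.card (H j) : k) h3')
    convert h7 using 1
    abel
  have h3 := Submodule.add_mem _ h1 (Submodule.sum_mem _ fun j (_ : j ∈ Finset.univ) =>
    Submodule.smul_mem _ (c j / (Fintype.card (H j) : k)) (h2 j))
  convert h3 using 1
  simp only [smul_sub, Finset.sum_sub_distrib]
  abel

end red

end Pool.Agent.J4.H18.CV
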