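import Pool.Agent.J4.H18.CV.J

/-!
# Alternating sums of exterior products on quotients of products of two curves
-/

set_option autoImplicit false

open FF IntermediateField Equiv Pool.Agent.W603.LV Pool.Agent.W603.PV Pool.Agent.W619.PQ
  Pool.Agent.J4.H17.ZC Pool.Agent.N162.CV Pool.Agent.N75.CV Pool.Agent.J4.H82.PV

namespace Pool.Agent.J4.H18.CV

section

variable {k : Type} [Field k] [CharZero k] {K1 K2 : Type} [Field K1] [Algebra k K1] [Field K2]
  [Algebra k K2] {G : Type} [Group G] [Fintype G] (α1 : G →* (K1 ≃ₐ[k] K1))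
  (α2 : G →* (K2 ≃ₐ[k] K2)) {J : Type} [Fintype J] (H : J → Subgroup G) [∀ j, Fintype (H j)]
  (u : ∀ j, H j →* kˣ) (c : J → k)

theorem quot_altK (om1 : J → Place k K1 →₀ k) (om2 : J → Place k K2 →₀ k) (m : J → ℕ)
    (hom : ∀ j, u j = 1 ∨ (om1 j = 0 ∧ om2 j = 0))
    (hc : ∀ x : G, x ≠ 1 → ∑ j, c j * ∑ g : G, cfK (u j) (g * x * g⁻¹) = 0)
    (hc0 : ∑ j, c j ≠ 0)
    (hv : ∀ j, VanPairK k (fun P => exu (α1.comp (H j).subtype) (u j) P - om1 j)
      (fun P => exu (α2.comp (H j).subtype) (u j)⁻¹ P - om2 j) (m j))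
    {n : ℕ} (hn : ∑ j, m j < n) {Y : Type} (q : Place k K1 × Place k K2 → Y)
    (hq : ∀ (g : G) (s : Place k K1) (t : Place k K2),
      q (act (α1 g) s, act (α2 g) t) = q (s, t))
    (b : Fin n → (Place k K1 × Place k K2) →₀ ℤ) (hb : ∀ i, dg (b i) = 0)
    (hb1 : ∀ i, ∃ N : ℕ, 0 < N ∧ N • ppa α1 (b i) ∈ RatEq (curve k K1))
    (hb2 : ∀ i, ∃ N : ℕ, 0 < N ∧ N • ppb α2 (b i) ∈ RatEq (curve k K2)) :
    ∃ N : ℕ, 0 < N ∧ N • altSum (fun i => Finsupp.mapDomain q (b i)) ∈
      RatEq ((((curve k K1).prod (curve k K2)).quot q).pow (Fin n)) := by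
  classical
  refine torsion_of_hom _ _ fun l hl => ?_
  let Λ : (Fin n → Y) → k := fun y => ((l (Finsupp.single y 1) : ℚ) : k)
  let Λ' : (Fin n → Place k K1 × Place k K2) → k := fun x => Λ fun i => q (x i)
  have hev : ∀ z : (Fin n → Place k K1 × Place k K2) →₀ ℤ,
      ev Λ' z = ((l (Finsupp.mapDomain (fun x i => q (x i)) z) : ℚ) : k) := by
    intro z
    induction z using Finsupp.induction_linear with
    | zero => rw [map_zero, Finsupp.mapDomain_zero, map_zero, Rat.cast_zero]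
    | add u v hu hv => rw [map_add, Finsupp.mapDomain_add, map_add, Rat.cast_add, hu, hv]
    | single x m =>
      have h4 : Finsupp.single (fun i => q (x i)) m = m • Finsupp.single (fun i => q (x i)) (1 : ℤ) := by
        rw [Finsupp.smul_single, smul_eq_mul, mul_one]
      rw [ev_single, Finsupp.mapDomain_single, h4, map_zsmul, zsmul_eq_mul, Rat.cast_mul,
        Rat.cast_intCast]
  have hΛ : Kill (((curve k K1).prod (curve k K2)).pow (Fin n)) Λ' := by
    intro r hr
    rw [hev, hl _ (quot_mem (X := (curve k K1).prod (curve k K2)) q hr), Rat.cast_zero]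
  set C : k := (Fintype.card G : k) * ∑ j, c j with hC
  have hC0 : C ≠ 0 := by
    rw [hC]
    refine mul_ne_zero ?_ hc0
    have : 0 < Fintype.card G := Fintype.card_pos
    exact_mod_cast this.ne'
  -- the values of the functional
  have h3 : ((l (altSum fun i => Finsupp.mapDomain q (b i)) : ℚ) : k) =
      ∑ σ : Perm (Fin n), ((Perm.sign σ : ℤ) : k) * ML Λ' (fun i => toK (b (σ i))) := by
    rw [← map_altSum q b, ← hev]
    unfold altSum
    rw [map_sum]
    refine Finset.sum_congr rfl fun σ _ => ?_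
    rw [map_zsmul, zsmul_eq_mul, ev_ext]
  have h4 : ∀ σ : Perm (Fin n), C ^ n * ML Λ' (fun i => toK (b (σ i))) =
      ∑ κ : Fin n → J, (∏ i, c (κ i) / (Fintype.card (H (κ i)) : k)) *
        ML Λ' (fun i => Finsupp.linearCombination k
          (opK α1 α2 (u (κ i)) (om1 (κ i)) (om2 (κ i))) (toK (trG α1 α2 (b (σ i))))) := by
    intro σ
    have h5 : C ^ n * ML Λ' (fun i => toK (b (σ i))) = ML Λ' (fun i => C • toK (b (σ i))) := by
      rw [MultilinearMap.map_smul_univ, Finset.prod_const, Finset.card_univ, Fintype.card_fin,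
        smul_eq_mul]
    have h6 : ML Λ' (fun i => C • toK (b (σ i))) =
        ML Λ' (fun i => ∑ j, (c j / (Fintype.card (H j) : k)) •
          Finsupp.linearCombination k (opK α1 α2 (u j) (om1 j) (om2 j))
            (toK (trG α1 α2 (b (σ i))))) :=
      teleK Λ' _ _ fun i => redK α1 α2 H u c om1 om2 hom hc q hq Λ hΛ (b (σ i)) (hb _) (hb1 _)
        (hb2 _)
    rw [h5, h6, MultilinearMap.map_sum]
    refine Finset.sum_congr rfl fun κ _ => ?_
    rw [MultilinearMap.map_smul_univ, smul_eq_mul]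
  have h5 : C ^ n * ((l (altSum fun i => Finsupp.mapDomain q (b i)) : ℚ) : k) = 0 := by
    rw [h3, Finset.mul_sum]
    have h6 : ∀ σ : Perm (Fin n), C ^ n * (((Perm.sign σ : ℤ) : k) *
        ML Λ' (fun i => toK (b (σ i)))) = ∑ κ : Fin n → J,
        (∏ i, c (κ i) / (Fintype.card (H (κ i)) : k)) * (((Perm.sign σ : ℤ) : k) *
          ML Λ' (fun i => Finsupp.linearCombination k
            (opK α1 α2 (u (κ i)) (om1 (κ i)) (om2 (κ i))) (toK (trG α1 α2 (b (σ i)))))) := by
      intro σ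
      rw [mul_left_comm, h4, Finset.mul_sum]
      refine Finset.sum_congr rfl fun κ _ => ?_
      ring
    rw [Finset.sum_congr rfl fun σ _ => h6 σ, Finset.sum_comm]
    refine Finset.sum_eq_zero fun κ _ => ?_
    rw [← Finset.mul_sum]
    have h7 := pair_vanishK' (fun j P => exu (α1.comp (H j).subtype) (u j) P - om1 j)
      (fun j P => exu (α2.comp (H j).subtype) (u j)⁻¹ P - om2 j) m hv hn Λ' hΛ κ
      (fun i => trG α1 α2 (b i))
    exact mul_eq_zero_of_right _ h7
  rcases mul_eq_zero.1 h5 with h6 | h6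
  · exact absurd h6 (pow_ne_zero n hC0)
  · exact_mod_cast h6

end

end Pool.Agent.J4.H18.CV
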